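import Mathlib

/-!
MP_688fd0_co, type C2 (helper20): THE CLOSING LEMMA.

`N` cyclic normal subgroup of order coprime to the index, three involutions `g 0 = a`, `g 1 = b`, `g 2 = t`. The `N`-component of
a word (with respect to a complement) is a formal vector `evF w` (12 integers), see `kap_word`. `word_pow`: two words with the
same formal vector which act trivially on `N` have the same `e`-th power, for every multiple `e` of the index of `N`.

Application to the wall word `aababbab`: wall step `L i`, other letter `K i`, strand step `s i = K i (L i)⁻¹ K i`. After `8 e`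
levels: wall = strand = hole line (`prL`, `prs`, `prK`), all equal to one element `zz` which commutes with `a t` and `b t`.
-/

set_option autoImplicit false

namespace Pool.Agent.Lib.MP_688fd0_co.SQ5.H20

/-! ### Formal vectors -/

/-- coefficient of `φ (l + 1) ^ i (φ (l + 2) ^ j (c l))` -/
abbrev FV := Fin 3 → Bool → Bool → ℤ

/-- the action of the letter `l` -/
def actF (l : Fin 3) (C : FV) : FV := fun l' i j =>
  if l = l' then - C l' i j else if l = l' + 1 then C l' (!i) j else C l' i (!j)

/-- the vector of the letter `l` -/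
def oneF (l : Fin 3) : FV := fun l' i j => if l = l' then (if i then 0 else if j then 0 else 1) else 0

/-- the vector of a word -/
def evF : List (Fin 3) → FV
  | [] => fun _ _ _ => 0
  | l :: w => fun l' i j => oneF l l' i j + actF l (evF w) l' i j

/-- the parities of a word -/
def par : List (Fin 3) → Fin 3 → Bool
  | [], _ => false
  | l :: w, l' => if l = l' then !(par w l') else par w l'

/-- same vector -/
def SameF (u v : List (Fin 3)) : Prop := ∀ l i j, evF u l i j = evF v l i j

instance (u v : List (Fin 3)) : Decidable (SameF u v) := by unfold SameF; infer_instance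

/-- even in all letters -/
def EvenF (u : List (Fin 3)) : Prop := ∀ l, par u l = false

instance (u : List (Fin 3)) : Decidable (EvenF u) := by unfold EvenF; infer_instance

section Sem

variable {A : Type*} [AddCommGroup A] (φ : Fin 3 → A →+ A) (c : Fin 3 → A)

/-- `φ l` or the identity -/
def pB (i : Bool) (l : Fin 3) (x : A) : A := if i then φ l x else x

/-- the basis vectors -/
def bas (l : Fin 3) (i j : Bool) : A := pB φ i (l + 1) (pB φ j (l + 2) (c l))

/-- the value of a formal vector -/
def valF (C : FV) : A := ∑ l, ∑ i, ∑ j, C l i j • bas φ c l i j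

/-- value of a word -/
def valW : List (Fin 3) → A
  | [] => 0
  | l :: w => c l + φ l (valW w)

/-- action of a word -/
def actW : List (Fin 3) → A → A
  | [], x => x
  | l :: w, x => φ l (actW w x)

variable {φ c} (hcomm : ∀ l l' x, φ l (φ l' x) = φ l' (φ l x)) (hinv : ∀ l x, φ l (φ l x) = x)
  (hneg : ∀ l, φ l (c l) = - c l)

include hcomm hneg in
theorem bas_self (l : Fin 3) (i j : Bool) : φ l (bas φ c l i j) = - bas φ c l i j := by
  unfold bas pB
  cases i <;> cases j <;> simp [hcomm l (l + 1), hcomm l (l + 2), hneg l]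

include hinv in
theorem bas_one (l : Fin 3) (i j : Bool) : φ (l + 1) (bas φ c l i j) = bas φ c l (!i) j := by
  unfold bas pB
  cases i <;> cases j <;> simp [hinv (l + 1)]

include hcomm hinv in
theorem bas_two (l : Fin 3) (i j : Bool) : φ (l + 2) (bas φ c l i j) = bas φ c l i (!j) := by
  unfold bas pB
  cases i <;> cases j <;> simp [hcomm (l + 2) (l + 1), hinv (l + 2)]

include hcomm hinv hneg in
theorem valF_act (l : Fin 3) (C : FV) : φ l (valF φ c C) = valF φ c (actF l C) := by
  unfold valF
  rw [map_sum]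
  refine Finset.sum_congr rfl fun l' _ => ?_
  rw [map_sum]
  simp only [Fintype.sum_bool, map_add, map_zsmul]
  have hl : l = l' ∨ l = l' + 1 ∨ l = l' + 2 := by
    revert l l'
    decide
  have h1 : ∀ l' : Fin 3, l' + 1 ≠ l' := by decide
  have h2 : ∀ l' : Fin 3, l' + 2 ≠ l' := by decide
  have h3 : ∀ l' : Fin 3, l' + 2 ≠ l' + 1 := by decide
  rcases hl with rfl | rfl | rfl
  · simp only [bas_self hcomm hneg, actF, if_true]
    simp only [smul_neg, neg_smul]
  · simp only [bas_one hinv, actF, if_neg (h1 l'), if_true]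
    simp only [Bool.not_true, Bool.not_false]
    abel
  · simp only [bas_two hcomm hinv, actF, if_neg (h2 l'), if_neg (h3 l')]
    simp only [Bool.not_true, Bool.not_false]
    abel

theorem valF_one (l : Fin 3) : valF φ c (oneF l) = c l := by
  unfold valF oneF
  rw [Finset.sum_eq_single l]
  · simp [bas, pB]
  · intro l' _ h
    simp [h.symm]
  · simp

theorem valF_add (C C' : FV) : valF φ c (fun l i j => C l i j + C' l i j) = valF φ c C + valF φ c C' := by
  unfold valF
  simp only [add_smul, Finset.sum_add_distrib]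

include hcomm hinv hneg in
/-- SOUNDNESS -/
theorem valW_eq (w : List (Fin 3)) : valW φ c w = valF φ c (evF w) := by
  induction w with
  | nil =>
    unfold valF
    simp [valW, evF]
  | cons l w ih =>
    change c l + φ l (valW φ c w) = valF φ c (fun l' i j => oneF l l' i j + actF l (evF w) l' i j)
    rw [ih, valF_act hcomm hinv hneg, valF_add, valF_one]

include hcomm hinv in
theorem actW_eq (w : List (Fin 3)) (x : A) : actW φ w x = pB φ (par w 0) 0 (pB φ (par w 1) 1 (pB φ (par w 2) 2 x)) := by
  induction w with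
  | nil => simp [actW, par, pB]
  | cons l w ih =>
    change φ l (actW φ w x) = _
    rw [ih]
    have h10 := hcomm 1 0
    have h20 := hcomm 2 0
    have h21 := hcomm 2 1
    fin_cases l
    · cases hp : par w 0 <;> simp [par, pB, hp, hinv]
    · cases hp0 : par w 0 <;> cases hp : par w 1 <;> simp [par, pB, hp0, hp, hinv, h10]
    · cases hp0 : par w 0 <;> cases hp1 : par w 1 <;> cases hp : par w 2 <;>
        simp [par, pB, hp0, hp1, hp, hinv, h20, h21]

end Sem

/-! ### The group -/

section Grp

open Subgroup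

variable {G : Type*} [Group G]

/-- commutativity of the automorphisms of a cyclic group -/
theorem cyc_comm {N : Subgroup G} [N.Normal] (hN : IsCyclic N) (x y : G) (n : N) :
    MulAut.conjNormal x (MulAut.conjNormal y n) = MulAut.conjNormal y (MulAut.conjNormal x n) := by
  obtain ⟨γ, hγ⟩ := IsCyclic.exists_generator (α := N)
  obtain ⟨i, hi⟩ := Subgroup.mem_zpowers_iff.1 (hγ n)
  obtain ⟨j, hj⟩ := Subgroup.mem_zpowers_iff.1 (hγ (MulAut.conjNormal x γ))
  obtain ⟨k, hk⟩ := Subgroup.mem_zpowers_iff.1 (hγ (MulAut.conjNormal y γ))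
  have hx : ∀ m : ℤ, MulAut.conjNormal x (γ ^ m) = γ ^ (j * m) := by
    intro m
    rw [map_zpow, ← hj, ← zpow_mul]
  have hy : ∀ m : ℤ, MulAut.conjNormal y (γ ^ m) = γ ^ (k * m) := by
    intro m
    rw [map_zpow, ← hk, ← zpow_mul]
  rw [← hi, hy, hx, hx, hy]
  congr 1
  ring

theorem cyc_mul_comm {N : Subgroup G} (hN : IsCyclic N) (x y : N) : x * y = y * x := by
  obtain ⟨γ, hγ⟩ := IsCyclic.exists_generator (α := N)
  obtain ⟨i, rfl⟩ := Subgroup.mem_zpowers_iff.1 (hγ x)
  obtain ⟨j, rfl⟩ := Subgroup.mem_zpowers_iff.1 (hγ y)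
  rw [← zpow_add, ← zpow_add, add_comm]

/-- THE WORD LEMMA -/
theorem word_pow [Finite G] (N : Subgroup G) [N.Normal] (hN : IsCyclic N) (hco : (Nat.card N).Coprime N.index)
    (g : Fin 3 → G) (hg : ∀ l, g l * g l = 1) (u v : List (Fin 3)) (huv : SameF u v) (hu : EvenF u) (hv : EvenF v)
    {e : ℕ} (he : N.index ∣ e) : ((u.map g).prod) ^ e = ((v.map g).prod) ^ e := by
  classical
  obtain ⟨H, hH⟩ := exists_right_complement'_of_coprime hco
  have hNc : ∀ x y : N, x * y = y * x := cyc_mul_comm hN
  -- the components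
  have hex : ∀ x : G, ∃ n : N, ∃ h ∈ H, x = n * h := by
    intro x
    obtain ⟨⟨n, h⟩, hh⟩ := hH.2 x
    exact ⟨n, h.1, h.2, hh.symm⟩
  choose κ η hηH hκ using hex
  have huniq : ∀ (n : N) (h : G), h ∈ H → ∀ x, x = n * h → κ x = n := by
    intro n h hh x hx
    have h1 : (⟨κ x, ⟨η x, hηH x⟩⟩ : N × H) = ⟨n, ⟨h, hh⟩⟩ := by
      apply hH.1
      change (κ x : G) * η x = n * h
      rw [← hx, ← hκ x]
    exact congrArg Prod.fst h1
  have hmul : ∀ x y : G, κ (x * y) = κ x * MulAut.conjNormal x (κ y) := by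
    intro x y
    refine huniq _ (η x * η y) (H.mul_mem (hηH x) (hηH y)) _ ?_
    have h1 : ((MulAut.conjNormal x (κ y) : N) : G) = x * κ y * x⁻¹ := MulAut.conjNormal_apply x (κ y)
    rw [Subgroup.coe_mul, h1]
    -- conj by `x` = conj by `η x`
    have h3 : (κ x : G) * (x * κ y * x⁻¹) = x * κ y * x⁻¹ * κ x := by
      have := congrArg (fun z : N => (z : G)) (hNc (κ x) (MulAut.conjNormal x (κ y)))
      simpa only [Subgroup.coe_mul, h1] using this
    rw [h3]
    have h4 : x⁻¹ * κ x * η x = 1 := by
      rw [mul_assoc, ← hκ x, inv_mul_cancel]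
    calc x * y = x * (κ y * η y) := by rw [← hκ y]
      _ = x * κ y * (x⁻¹ * κ x * η x) * η y := by rw [h4]; group
      _ = x * κ y * x⁻¹ * κ x * (η x * η y) := by group
  have hone : κ 1 = 1 := huniq 1 1 H.one_mem _ (by simp)
  -- additive picture
  let cg : CommGroup N := { (inferInstance : Group N) with mul_comm := hNc }
  let φ : Fin 3 → (Additive N →+ Additive N) := fun l => MonoidHom.toAdditive (MulAut.conjNormal (g l)).toMonoidHom
  let c : Fin 3 → Additive N := fun l => Additive.ofMul (κ (g l))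
  have hφ : ∀ (l : Fin 3) (n : N), φ l (Additive.ofMul n) = Additive.ofMul (MulAut.conjNormal (g l) n) := fun l n => rfl
  have hcomm : ∀ l l' x, φ l (φ l' x) = φ l' (φ l x) := by
    intro l l' x
    obtain ⟨n, rfl⟩ := Additive.ofMul.surjective x
    rw [hφ, hφ, hφ, hφ, cyc_comm hN]
  have hinv : ∀ l x, φ l (φ l x) = x := by
    intro l x
    obtain ⟨n, rfl⟩ := Additive.ofMul.surjective x
    rw [hφ, hφ, ← MulAut.mul_apply, ← map_mul, hg, map_one, MulAut.one_apply]
  have hneg : ∀ l, φ l (c l) = - c l := by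
    intro l
    change Additive.ofMul (MulAut.conjNormal (g l) (κ (g l))) = - Additive.ofMul (κ (g l))
    rw [← ofMul_inv]
    congr 1
    rw [eq_inv_iff_mul_eq_one, hNc, ← hmul, hg, hone]
  have hval : ∀ w : List (Fin 3), valW φ c w = Additive.ofMul (κ ((w.map g).prod)) := by
    intro w
    induction w with
    | nil => rw [List.map_nil, List.prod_nil, hone]; rfl
    | cons l w ih =>
      rw [List.map_cons, List.prod_cons, hmul, ofMul_mul]
      change c l + φ l (valW φ c w) = _
      rw [ih]
      rfl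
  have hact : ∀ (w : List (Fin 3)) (n : N), actW φ w (Additive.ofMul n) =
      Additive.ofMul (MulAut.conjNormal ((w.map g).prod) n) := by
    intro w
    induction w with
    | nil => intro n; rw [List.map_nil, List.prod_nil, map_one, MulAut.one_apply]; rfl
    | cons l w ih =>
      intro n
      rw [List.map_cons, List.prod_cons, map_mul, MulAut.mul_apply]
      change φ l (actW φ w (Additive.ofMul n)) = _
      rw [ih, hφ]
  have hκuv : κ ((u.map g).prod) = κ ((v.map g).prod) := by
    apply Additive.ofMul.injective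
    rw [← hval, ← hval, valW_eq hcomm hinv hneg, valW_eq hcomm hinv hneg]
    congr 1
    funext l i j
    exact huv l i j
  have htriv : ∀ w : List (Fin 3), EvenF w → ∀ n : N, MulAut.conjNormal ((w.map g).prod) n = n := by
    intro w hw n
    apply Additive.ofMul.injective
    rw [← hact, actW_eq hcomm hinv, hw 0, hw 1, hw 2]
    rfl
  have hcardH : Nat.card H = N.index := by
    rw [← hH.symm.index_eq_card]
  have hfin : ∀ w : List (Fin 3), EvenF w → ((w.map g).prod) ^ e = ((κ ((w.map g).prod) : N) : G) ^ e := by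
    intro w hw
    set x := (w.map g).prod with hx
    have h1 : x * κ x * x⁻¹ = κ x := by
      rw [← MulAut.conjNormal_apply, htriv w hw]
    have h2 : Commute (κ x : G) (η x) := by
      have h3 : x * κ x = κ x * x := by
        rw [← mul_inv_eq_iff_eq_mul, h1]
      have h4 : (κ x : G) * (η x * κ x) = κ x * (κ x * η x) := by
        rw [← mul_assoc, ← hκ x, h3]
      exact (mul_left_cancel h4).symm
    have h5 : η x ^ e = 1 := by
      obtain ⟨q, rfl⟩ := he
      rw [pow_mul, ← hcardH]
      have h6 : (⟨η x, hηH x⟩ : H) ^ Nat.card H = 1 := pow_card_eq_one'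
      have h7 : η x ^ Nat.card H = 1 := congrArg (fun z : H => (z : G)) h6
      rw [h7, one_pow]
    conv_lhs => rw [hκ x]
    rw [h2.mul_pow, h5, mul_one]
  rw [hfin u hu, hfin v hv, hκuv]

/-! ### The wall word `aababbab` -/

/-- product of `f m, .., f (m + n - 1)` -/
def pr (f : ℤ → G) (m : ℤ) : ℕ → G
  | 0 => 1
  | n + 1 => pr f m n * f (m + n)

theorem pr_add (f : ℤ → G) (m : ℤ) (i j : ℕ) : pr f m (i + j) = pr f m i * pr f (m + i) j := by
  induction j with
  | zero => simp [pr]
  | succ j ih =>
    change pr f m (i + j) * f (m + ((i + j : ℕ) : ℤ)) = pr f m i * (pr f (m + i) j * f (m + i + j))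
    rw [ih, mul_assoc]
    congr 3
    push_cast
    ring

theorem pr_congr {f f' : ℤ → G} {m m' : ℤ} : ∀ n : ℕ, (∀ i : ℕ, i < n → f (m + i) = f' (m' + i)) → pr f m n = pr f' m' n
  | 0, _ => rfl
  | n + 1, h => by
    change pr f m n * f (m + n) = pr f' m' n * f' (m' + n)
    rw [pr_congr n fun i hi => h i (by omega), h n (by omega)]

theorem pr_per {f : ℤ → G} {p : ℕ} (hf : ∀ m, f (m + p) = f m) (m : ℤ) (e : ℕ) : pr f m (p * e) = pr f m p ^ e := by
  induction e with
  | zero => simp [pr]
  | succ e ih =>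
    rw [Nat.mul_succ, pr_add, ih, pow_succ]
    congr 1
    refine pr_congr p fun i _ => ?_
    have hq : ∀ (q : ℕ) (x : ℤ), f (x + (p * q : ℕ)) = f x := by
      intro q
      induction q with
      | zero => intro x; simp
      | succ q ihq =>
        intro x
        have e1 : x + ((p * (q + 1) : ℕ) : ℤ) = x + (p * q : ℕ) + p := by push_cast; ring
        rw [e1, hf, ihq]
    have e2 : m + ((p * e : ℕ) : ℤ) + i = m + i + (p * e : ℕ) := by ring
    rw [e2, hq]

/-- list version -/
def prW (f : ℤ → List (Fin 3)) (m : ℤ) : ℕ → List (Fin 3)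
  | 0 => []
  | n + 1 => prW f m n ++ f (m + n)

theorem prW_prod (g : Fin 3 → G) (f : ℤ → List (Fin 3)) (m : ℤ) (n : ℕ) :
    ((prW f m n).map g).prod = pr (fun m => ((f m).map g).prod) m n := by
  induction n with
  | zero => rfl
  | succ n ih =>
    change ((prW f m n ++ f (m + n)).map g).prod = _
    rw [List.map_append, List.prod_append, ih]
    rfl

end Grp

theorem prW_congr {f f' : ℤ → List (Fin 3)} {m m' : ℤ} :
    ∀ n : ℕ, (∀ i : ℕ, i < n → f (m + i) = f' (m' + i)) → prW f m n = prW f' m' n
  | 0, _ => rfl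
  | n + 1, h => by
    change prW f m n ++ f (m + n) = prW f' m' n ++ f' (m' + n)
    rw [prW_congr n fun i hi => h i (by omega), h n (by omega)]

/-- the word `aababbab`, `true = a` -/
def B8 (m : ℤ) : Bool :=
  m % 8 = 0 || m % 8 = 1 || m % 8 = 3 || m % 8 = 6

theorem B8_mod (m i : ℤ) : B8 (m % 8 + i) = B8 (m + i) := by
  unfold B8
  have : (m % 8 + i) % 8 = (m + i) % 8 := by omega
  rw [this]

theorem B8_add (m : ℤ) : B8 (m + 8) = B8 m := by
  unfold B8
  have : (m + 8) % 8 = m % 8 := by omega
  rw [this]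

/-- the wall step -/
def Lw (m : ℤ) : List (Fin 3) := if B8 m then [0, 2] else [1, 2]

/-- the inverse of the wall step -/
def Li (m : ℤ) : List (Fin 3) := if B8 m then [2, 0] else [2, 1]

/-- the other step -/
def Kw (m : ℤ) : List (Fin 3) := if B8 m then [1, 2] else [0, 2]

/-- the inverse of the other step -/
def Ki (m : ℤ) : List (Fin 3) := if B8 m then [2, 1] else [2, 0]

/-- the strand step -/
def Sw (m : ℤ) : List (Fin 3) := Kw m ++ (Li m ++ Kw m)

theorem mod8 (m : ℤ) : 0 ≤ m % 8 ∧ m % 8 < 8 := ⟨Int.emod_nonneg _ (by norm_num), Int.emod_lt_of_pos _ (by norm_num)⟩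

theorem Lw_mod (m i : ℤ) : Lw (m + i) = Lw (m % 8 + i) := by unfold Lw; rw [B8_mod]
theorem Sw_mod (m i : ℤ) : Sw (m + i) = Sw (m % 8 + i) := by unfold Sw Kw Li; rw [B8_mod]
theorem Kw_mod (m : ℤ) : Kw m = Kw (m % 8) := by
  unfold Kw
  have := B8_mod m 0
  rw [add_zero, add_zero] at this
  rw [this]
theorem Ki_mod (m : ℤ) : Ki m = Ki (m % 8) := by
  unfold Ki
  have := B8_mod m 0
  rw [add_zero, add_zero] at this
  rw [this]

/-- wall -/
theorem sameL (m : ℤ) : SameF (prW Lw m 8) (prW Lw 0 8) ∧ EvenF (prW Lw m 8) := by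
  have h : prW Lw m 8 = prW Lw (m % 8) 8 := prW_congr 8 fun i _ => Lw_mod m i
  rw [h]
  obtain ⟨h0, h1⟩ := mod8 m
  generalize m % 8 = r at h0 h1
  interval_cases r <;> decide +kernel

/-- strand -/
theorem sameS (m : ℤ) : SameF (prW Sw m 8) (prW Lw 0 8) ∧ EvenF (prW Sw m 8) := by
  have h : prW Sw m 8 = prW Sw (m % 8) 8 := prW_congr 8 fun i _ => Sw_mod m i
  rw [h]
  obtain ⟨h0, h1⟩ := mod8 m
  generalize m % 8 = r at h0 h1
  interval_cases r <;> decide +kernel

/-- hole line -/
theorem sameK (m : ℤ) : SameF (Kw m ++ (prW Sw (m + 1) 8 ++ Ki m)) (prW Lw 0 8) ∧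
    EvenF (Kw m ++ (prW Sw (m + 1) 8 ++ Ki m)) := by
  have h : prW Sw (m + 1) 8 = prW Sw (m % 8 + 1) 8 := prW_congr 8 fun i _ => by
    have := Sw_mod m (1 + i)
    rwa [← add_assoc, ← add_assoc] at this
  rw [h, Kw_mod, Ki_mod]
  obtain ⟨h0, h1⟩ := mod8 m
  generalize m % 8 = r at h0 h1
  interval_cases r <;> decide +kernel

theorem sameA : SameF ([0, 2] ++ (prW Lw 0 8 ++ [2, 0])) (prW Lw 0 8) ∧ EvenF ([0, 2] ++ (prW Lw 0 8 ++ [2, 0])) := by
  decide +kernel

theorem sameB : SameF ([1, 2] ++ (prW Lw 0 8 ++ [2, 1])) (prW Lw 0 8) ∧ EvenF ([1, 2] ++ (prW Lw 0 8 ++ [2, 1])) := by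
  decide +kernel

/-! ### The closing lemma -/

section Closing

variable {G : Type*} [Group G]

/-- wall step -/
def LG (a b t : G) (m : ℤ) : G := if B8 m then a * t else b * t

/-- the other step -/
def KG (a b t : G) (m : ℤ) : G := if B8 m then b * t else a * t

/-- strand step (distance 4) -/
def SG (a b t : G) (m : ℤ) : G := KG a b t m * (LG a b t m)⁻¹ * KG a b t m

theorem LG_add (a b t : G) (m : ℤ) : LG a b t (m + 8) = LG a b t m := by unfold LG; rw [B8_add]
theorem KG_add (a b t : G) (m : ℤ) : KG a b t (m + 8) = KG a b t m := by unfold KG; rw [B8_add]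
theorem SG_add (a b t : G) (m : ℤ) : SG a b t (m + 8) = SG a b t m := by unfold SG; rw [LG_add, KG_add]

/-- THE CLOSING LEMMA for the wall word `aababbab`: after `8 e` levels (`e` a multiple of the index of `N`) the wall (`LG`),
the strands (`SG`) and the hole line have moved by the same element `z`, which commutes with `a t` and `b t`. -/
theorem closing [Finite G] (N : Subgroup G) [N.Normal] (hN : IsCyclic N) (hco : (Nat.card N).Coprime N.index)
    {a b t : G} (ha : a * a = 1) (hb : b * b = 1) (ht : t * t = 1) {e : ℕ} (he : N.index ∣ e) :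
    ∃ z : G, z ∈ N ∧ a * t * z = z * (a * t) ∧ b * t * z = z * (b * t) ∧ (∀ m, pr (LG a b t) m (8 * e) = z) ∧
      (∀ m, pr (SG a b t) m (8 * e) = z) ∧ (∀ m, KG a b t m * pr (SG a b t) (m + 1) (8 * e) = z * KG a b t m) := by
  set g : Fin 3 → G := ![a, b, t] with hg
  have hgl : ∀ l, g l * g l = 1 := by
    intro l
    fin_cases l
    · exact ha
    · exact hb
    · exact ht
  have ia : a⁻¹ = a := inv_eq_of_mul_eq_one_left ha
  have ib : b⁻¹ = b := inv_eq_of_mul_eq_one_left hb
  have it : t⁻¹ = t := inv_eq_of_mul_eq_one_left ht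
  have hL : (fun m => ((Lw m).map g).prod) = LG a b t := by
    funext m
    unfold Lw LG
    split_ifs <;> simp [hg]
  have hK : ∀ m, ((Kw m).map g).prod = KG a b t m := by
    intro m
    unfold Kw KG
    split_ifs <;> simp [hg]
  have hKi : ∀ m, ((Ki m).map g).prod = (KG a b t m)⁻¹ := by
    intro m
    unfold Ki KG
    split_ifs <;> simp [hg, mul_inv_rev, ia, ib, it]
  have hLi : ∀ m, ((Li m).map g).prod = (LG a b t m)⁻¹ := by
    intro m
    unfold Li LG
    split_ifs <;> simp [hg, mul_inv_rev, ia, ib, it]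
  have hS : (fun m => ((Sw m).map g).prod) = SG a b t := by
    funext m
    unfold Sw SG
    rw [List.map_append, List.prod_append, List.map_append, List.prod_append, hK, hLi, mul_assoc]
  have key : ∀ u v : List (Fin 3), SameF u v → EvenF u → EvenF v → ((u.map g).prod) ^ e = ((v.map g).prod) ^ e :=
    fun u v h1 h2 h3 => word_pow N hN hco g hgl u v h1 h2 h3 he
  have h0 := (sameL 0).2
  have pL : ∀ m, pr (LG a b t) m (8 * e) = pr (LG a b t) m 8 ^ e := fun m => pr_per (p := 8) (LG_add a b t) m e
  have pS : ∀ m, pr (SG a b t) m (8 * e) = pr (SG a b t) m 8 ^ e := fun m => pr_per (p := 8) (SG_add a b t) m e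
  have wL : ∀ m n, ((prW Lw m n).map g).prod = pr (LG a b t) m n := fun m n => by rw [prW_prod, hL]
  have wS : ∀ m n, ((prW Sw m n).map g).prod = pr (SG a b t) m n := fun m n => by rw [prW_prod, hS]
  refine ⟨pr (LG a b t) 0 8 ^ e, ?_, ?_, ?_, ?_, ?_, ?_⟩
  · obtain ⟨q, rfl⟩ := he
    rw [pow_mul]
    exact N.pow_mem (N.pow_index_mem _) _
  · have h := key _ _ sameA.1 sameA.2 h0
    rw [List.map_append, List.prod_append, List.map_append, List.prod_append, wL] at h
    have e1 : (([0, 2] : List (Fin 3)).map g).prod = a * t := by simp [hg]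
    have e2 : (([2, 0] : List (Fin 3)).map g).prod = (a * t)⁻¹ := by simp [hg, mul_inv_rev, ia, it]
    rw [e1, e2, ← mul_assoc, conj_pow] at h
    exact mul_inv_eq_iff_eq_mul.1 h
  · have h := key _ _ sameB.1 sameB.2 h0
    rw [List.map_append, List.prod_append, List.map_append, List.prod_append, wL] at h
    have e1 : (([1, 2] : List (Fin 3)).map g).prod = b * t := by simp [hg]
    have e2 : (([2, 1] : List (Fin 3)).map g).prod = (b * t)⁻¹ := by simp [hg, mul_inv_rev, ib, it]
    rw [e1, e2, ← mul_assoc, conj_pow] at h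
    exact mul_inv_eq_iff_eq_mul.1 h
  · intro m
    have h := key _ _ (sameL m).1 (sameL m).2 h0
    rwa [wL, wL, ← pL] at h
  · intro m
    have h := key _ _ (sameS m).1 (sameS m).2 h0
    rwa [wS, wL, ← pS] at h
  · intro m
    have h := key _ _ (sameK m).1 (sameK m).2 h0
    rw [List.map_append, List.prod_append, List.map_append, List.prod_append, wS, wL, hK, hKi, ← mul_assoc, conj_pow,
      ← pS] at h
    exact mul_inv_eq_iff_eq_mul.1 h

end Closing

end Pool.Agent.Lib.MP_688fd0_co.SQ5.H20
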