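import Pool.Agent.Lib.MP_688fd0_co.SQ5.H76.Chart

/-!
MP_688fd0_co, type C2, FAR-3, design B' (helper20), rows HPATH, DEG4: rungs and the rung graph.

`D` = bundle of one run, `s0` = level of block 0, strands `s = (κ, x)` of `Sd c D s0 κ0 κ1`. `ps D s0 s m` = the element of
the strand `s` at its white wall site in block `m : ℤ` (also outside of the run). `Rung m s s'`: the white wall site of `s` in
block `m` and the black wall site of `s'` in block `m` are matched by the wall letter: then `s'` has its next white wall site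
(block `m + 1`) at the same wall. `Lam v0 v1`: the graph of all rungs (all `m : ℤ`) between the strands `v0 ≤ κ ≤ v1`.
`wp`: the strands along one wall.
-/

set_option autoImplicit false

namespace Pool.Agent.Lib.MP_688fd0_co.SQ5.H20

open Pool.Agent.Lib.MP_688fd0_co.OSF Pool.Agent.Lib.MP_688fd0_co.SQ5.H95 Pool.Agent.Lib.MP_688fd0_co.SQ5.H76

universe u v

variable {Q : Type u} [Group Q] {B : Lb.{u, v} Q} {l : L3 → B.L} {L : AddSubgroup (ℤ × ℤ)}
variable {c : Cov B l L} {D : Bd} {s0 κ0 κ1 : ℤ}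

/-- the element of the strand at its white wall site in block `m` -/
def ps (s : Sd c D s0 κ0 κ1) (m : ℤ) : Q := s.1.2 * gz (D.stp (qq B l) s.1.1) s0 m

theorem ps_eq (s : Sd c D s0 κ0 κ1) (m : ℤ) : ps s m = s.1.2 * D.pos (qq B l) s0 s.1.1 m 0 := by
  unfold ps Bd.pos
  rw [Bd.lw_zero, mul_one]

theorem ps_Z (s : Sd c D s0 κ0 κ1) (m : ℕ) : (D.chart c s0 κ0 κ1).Z m s 0 = ps s m := (ps_eq s m).symm

theorem ps_succ (s : Sd c D s0 κ0 κ1) (m : ℤ) : ps s (m + 1) = ps s m * D.stp (qq B l) s.1.1 (s0 + m) := by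
  unfold ps
  rw [gz_succ, mul_assoc]

theorem ps_inj {s s' : Sd c D s0 κ0 κ1} {m : ℤ} (h : s.1.1 = s'.1.1) (h' : ps s m = ps s' m) : s = s' := by
  unfold ps at h'
  rw [h] at h'
  exact Subtype.ext (Prod.ext h (mul_right_cancel h'))

/-- the direction of a letter -/
def df (b : Bool) : ℤ := if b = true then 1 else -1

theorem df_ne (b : Bool) : df b ≠ 0 := by cases b <;> decide

theorem cs_succ (D : Bd) (s : ℤ) : D.cs (s + 1) = D.cs s + df (D.b s) := D.hcs s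

/-- THE RUNG of level `m`. -/
def Rung (m : ℤ) (s s' : Sd c D s0 κ0 κ1) : Prop :=
  s'.1.1 = s.1.1 + df (D.b (s0 + m)) ∧ ps s m * Bd.LL (qq B l) (D.b (s0 + m)) = ps s' (m + 1)

/-- THE RUNG GRAPH of the strands `v0 ≤ κ ≤ v1`. -/
def Lam (c : Cov B l L) (D : Bd) (s0 κ0 κ1 v0 v1 : ℤ) : SimpleGraph (Sd c D s0 κ0 κ1) where
  Adj s s' := (v0 ≤ s.1.1 ∧ s.1.1 ≤ v1) ∧ (v0 ≤ s'.1.1 ∧ s'.1.1 ≤ v1) ∧ ∃ m : ℤ, Rung m s s' ∨ Rung m s' s
  symm := ⟨fun _ _ h => ⟨h.2.1, h.1, h.2.2.imp fun _ h => h.symm⟩⟩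
  loopless := ⟨fun s h => by
    obtain ⟨_, _, m, h | h⟩ := h
    · have h1 := h.1
      have h2 := df_ne (D.b (s0 + m))
      omega
    · have h1 := h.1
      have h2 := df_ne (D.b (s0 + m))
      omega⟩

variable {v0 v1 : ℤ}

theorem Rung.inj_right {m : ℤ} {s s' s'' : Sd c D s0 κ0 κ1} (h : Rung m s s') (h' : Rung m s s'') : s' = s'' :=
  ps_inj (m := m + 1) (h.1.trans h'.1.symm) (h.2.symm.trans h'.2)

theorem Rung.inj_left {m : ℤ} {s s' s'' : Sd c D s0 κ0 κ1} (h : Rung m s' s) (h' : Rung m s'' s) : s' = s'' := by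
  have h1 := h.1
  have h2 := h'.1
  refine ps_inj (m := m) (by omega) (mul_right_cancel (h.2.trans h'.2.symm))

theorem Rung.adj {m : ℤ} {s s' : Sd c D s0 κ0 κ1} (h : Rung m s s') (h0 : v0 ≤ s.1.1 ∧ s.1.1 ≤ v1)
    (h1 : v0 ≤ s'.1.1 ∧ s'.1.1 ≤ v1) : (Lam c D s0 κ0 κ1 v0 v1).Adj s s' := ⟨h0, h1, m, Or.inl h⟩

theorem Rung.adj' {m : ℤ} {s s' : Sd c D s0 κ0 κ1} (h : Rung m s' s) (h0 : v0 ≤ s.1.1 ∧ s.1.1 ≤ v1)
    (h1 : v0 ≤ s'.1.1 ∧ s'.1.1 ≤ v1) : (Lam c D s0 κ0 κ1 v0 v1).Adj s s' := ⟨h0, h1, m, Or.inr h⟩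

/-! ### Inside a region: rungs are wall partners -/

section Reg

variable {M R : ℕ} {dc : ℕ → ℤ} {spc : ℕ → Prop} {Gg : ℤ} {g : Geo L M R dc spc Gg} {E : ℕ} {K0 K1 : ℤ}

/-- The wall partner in a region. -/
theorem Rung.partner (hi : ∀ i, B.inv (l i) = l i) (H : Geo.Rg g D s0 E K0 K1 κ0 κ1) {m : ℕ} (hm : m ≤ E)
    {s s' : Sd c D s0 κ0 κ1} (h : Rung m s s') :
    g.Pm c ((D.chart c s0 κ0 κ1).Z m s 0) = (D.chart c s0 κ0 κ1).Z m s' ((D.chart c s0 κ0 κ1).h m s') := by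
  have hP : g.Pm c ((D.chart c s0 κ0 κ1).Z m s 0) = ps s m * B.q (l (wl (D.b (s0 + m)))) := by
    unfold Geo.Pm
    rw [H.mt_zero c s.2.1 s.2.2.1 hm (Z_over D c hi m s 0), ps_Z]
  have hZ : (D.chart c s0 κ0 κ1).Z m s' ((D.chart c s0 κ0 κ1).h m s') * B.q (l .t) = ps s' (m + 1) := by
    rw [ps_eq, D.pos_up, ← mul_assoc]
    rfl
  have hmul : ps s m * Bd.LL (qq B l) (D.b (s0 + m)) = ps s m * B.q (l (wl (D.b (s0 + m)))) * B.q (l .t) := by
    rw [mul_assoc]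
    rfl
  rw [hP]
  refine mul_right_cancel (b := B.q (l .t)) ?_
  rw [← hmul, hZ, h.2]

end Reg

/-! ### The strands along one wall -/

/-- the element of the wall (element `y` in block 0) in block `m` -/
def wx (B : Lb.{u, v} Q) (l : L3 → B.L) (D : Bd) (s0 : ℤ) (y : Q) (m : ℤ) : Q :=
  y * gz (fun s => Bd.LL (qq B l) (D.b s)) s0 m

theorem wx_zero (y : Q) : wx B l D s0 y 0 = y := by
  unfold wx
  rw [gz_zero, mul_one]

theorem wx_succ (y : Q) (m : ℤ) : wx B l D s0 y (m + 1) = wx B l D s0 y m * Bd.LL (qq B l) (D.b (s0 + m)) := by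
  unfold wx
  rw [gz_succ, mul_assoc]

/-- The wall: `y` = its element in block 0. -/
structure Wl (c : Cov B l L) (D : Bd) (s0 κ0 κ1 J : ℤ) (y : Q) : Prop where
  ov : c.Over y (D.st (J + D.cs s0) s0 0)
  lo : ∀ m : ℤ, κ0 ≤ J + D.cs (s0 + m)
  hi : ∀ m : ℤ, J + D.cs (s0 + m) ≤ κ1

theorem st_wall (D : Bd) (J s : ℤ) : nb (nb (D.st (J + D.cs s) s 0) (wl (D.b s))) .t = D.st (J + D.cs (s + 1)) (s + 1) 0 := by
  have e : (if D.b s = true then J + D.cs s + 1 else J + D.cs s - 1) = J + D.cs (s + 1) := by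
    rw [cs_succ]
    unfold df
    split_ifs <;> ring
  rw [D.nb_wall, e, D.nb_up]

variable {J : ℤ} {y : Q}

theorem Wl.over (hi : ∀ i, B.inv (l i) = l i) (h : Wl c D s0 κ0 κ1 J y) (m : ℤ) :
    c.Over (wx B l D s0 y m) (D.st (J + D.cs (s0 + m)) (s0 + m) 0) := by
  have hs : ∀ m : ℤ, c.Over (wx B l D s0 y (m + 1)) (D.st (J + D.cs (s0 + (m + 1))) (s0 + (m + 1)) 0) ↔
      c.Over (wx B l D s0 y m) (D.st (J + D.cs (s0 + m)) (s0 + m) 0) := by
    intro m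
    rw [← add_assoc, ← st_wall, wx_succ]
    have e : wx B l D s0 y m * Bd.LL (qq B l) (D.b (s0 + m)) =
        wx B l D s0 y m * B.q (l (wl (D.b (s0 + m)))) * B.q (l .t) := by
      rw [mul_assoc]
      rfl
    rw [e, c.over_step_iff hi, c.over_step_iff hi]
  induction m using Int.induction_on with
  | zero =>
    rw [wx_zero, add_zero]
    exact h.ov
  | succ m ih => exact (hs m).2 ih
  | pred m ih =>
    rw [← hs, sub_add_cancel]
    exact ih

/-- THE WALL PATH: the strand at the wall in block `m`. -/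
def wp (hi : ∀ i, B.inv (l i) = l i) (h : Wl c D s0 κ0 κ1 J y) (m : ℤ) : Sd c D s0 κ0 κ1 :=
  ⟨(J + D.cs (s0 + m), wx B l D s0 y m * (gz (D.stp (qq B l) (J + D.cs (s0 + m))) s0 m)⁻¹), h.lo m, h.hi m, by
    have h1 := c.over_pos hi D s0 (J + D.cs (s0 + m))
      (x := wx B l D s0 y m * (gz (D.stp (qq B l) (J + D.cs (s0 + m))) s0 m)⁻¹) m 0
    have e : wx B l D s0 y m * (gz (D.stp (qq B l) (J + D.cs (s0 + m))) s0 m)⁻¹ *
        D.pos (qq B l) s0 (J + D.cs (s0 + m)) m 0 = wx B l D s0 y m := by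
      unfold Bd.pos
      rw [Bd.lw_zero, mul_one, inv_mul_cancel_right]
    rw [e] at h1
    exact h1.1 (h.over hi m)⟩

theorem wp_κ (hi : ∀ i, B.inv (l i) = l i) (h : Wl c D s0 κ0 κ1 J y) (m : ℤ) : (wp hi h m).1.1 = J + D.cs (s0 + m) := rfl

theorem ps_wp (hi : ∀ i, B.inv (l i) = l i) (h : Wl c D s0 κ0 κ1 J y) (m : ℤ) : ps (wp hi h m) m = wx B l D s0 y m :=
  inv_mul_cancel_right _ _

theorem wp_rung (hi : ∀ i, B.inv (l i) = l i) (h : Wl c D s0 κ0 κ1 J y) (m : ℤ) :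
    Rung m (wp hi h m) (wp hi h (m + 1)) := by
  refine ⟨?_, ?_⟩
  · rw [wp_κ, wp_κ, ← add_assoc, cs_succ]
    ring
  · rw [ps_wp, ps_wp, wx_succ]

/-- Uniqueness. -/
theorem wp_eq (hi : ∀ i, B.inv (l i) = l i) (h : Wl c D s0 κ0 κ1 J y) {m : ℤ} {s : Sd c D s0 κ0 κ1}
    (h1 : s.1.1 = J + D.cs (s0 + m)) (h2 : ps s m = wx B l D s0 y m) : s = wp hi h m :=
  ps_inj (m := m) (h1.trans (wp_κ hi h m).symm) (h2.trans (ps_wp hi h m).symm)

/-- Every strand is in every block on a wall. -/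
theorem exists_wl (hi : ∀ i, B.inv (l i) = l i) (s : Sd c D s0 κ0 κ1) (m : ℤ)
    (lo : ∀ m' : ℤ, κ0 ≤ s.1.1 - D.cs (s0 + m) + D.cs (s0 + m'))
    (hi' : ∀ m' : ℤ, s.1.1 - D.cs (s0 + m) + D.cs (s0 + m') ≤ κ1) :
    ∃ y, ∃ h : Wl c D s0 κ0 κ1 (s.1.1 - D.cs (s0 + m)) y, wp hi h m = s := by
  set J := s.1.1 - D.cs (s0 + m) with hJ
  set y := ps s m * (gz (fun s => Bd.LL (qq B l) (D.b s)) s0 m)⁻¹ with hy
  have hw : wx B l D s0 y m = ps s m := by
    unfold wx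
    rw [hy, inv_mul_cancel_right]
  have hκ : J + D.cs (s0 + m) = s.1.1 := by rw [hJ]; ring
  have hov : c.Over (wx B l D s0 y m) (D.st (J + D.cs (s0 + m)) (s0 + m) 0) := by
    rw [hw, hκ, ps_eq]
    exact (c.over_pos hi D s0 s.1.1 m 0).2 s.2.2.2
  have hs : ∀ m : ℤ, c.Over (wx B l D s0 y (m + 1)) (D.st (J + D.cs (s0 + (m + 1))) (s0 + (m + 1)) 0) ↔
      c.Over (wx B l D s0 y m) (D.st (J + D.cs (s0 + m)) (s0 + m) 0) := by
    intro m
    rw [← add_assoc, ← st_wall, wx_succ]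
    have e : wx B l D s0 y m * Bd.LL (qq B l) (D.b (s0 + m)) =
        wx B l D s0 y m * B.q (l (wl (D.b (s0 + m)))) * B.q (l .t) := by
      rw [mul_assoc]
      rfl
    rw [e, c.over_step_iff hi, c.over_step_iff hi]
  have hall : ∀ k : ℤ, c.Over (wx B l D s0 y (m + k)) (D.st (J + D.cs (s0 + (m + k))) (s0 + (m + k)) 0) := by
    intro k
    induction k using Int.induction_on with
    | zero => rw [add_zero]; exact hov
    | succ k ih =>
      have := (hs (m + k)).2 ih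
      rw [add_assoc m (k : ℤ) 1] at this
      exact this
    | pred k ih =>
      rw [← hs, add_assoc m, sub_add_cancel]
      exact ih
  have h0 := hall (-m)
  rw [add_neg_cancel, add_zero, wx_zero] at h0
  have hW : Wl c D s0 κ0 κ1 J y := ⟨h0, lo, hi'⟩
  exact ⟨y, hW, (wp_eq hi hW (m := m) hκ.symm hw.symm).symm⟩

end Pool.Agent.Lib.MP_688fd0_co.SQ5.H20
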