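import Pool.Agent.Lib.MP_688fd0_co.SQ5.H20.Perm

/-!
MP_688fd0_co, type C2 (helper20): chains of T-gadgets with drift.

`WC D c n e f`: window of length `n`, lower pair `e`, upper pair `f`, which moves at most `c` strands. `HPath ω τ θ P M`: the
rungs `rg ω m = {ω m, ω (m + 1)}` of one wall (all levels `m : ℤ`), hole lines `lin τ m`, vertical period `P`; after `P` levels
everything is moved by the permutation `θ` of the strands (the drift: `θ = 1` for a wall which sees only normal strips); `M` =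
the good levels: their hole lines meet the wall again after `P` levels, and only in levels of `M`. `chain_fwd`, `chain_bwd`: if
`σ` is a permutation of the levels (`σ (m + P) = σ m + P`) which maps `M` to `M` and such that `rg m`, `rg (σ m)` share exactly
one strand then there are windows `rg m → rg (σ⁻¹ m + q P)` and `rg (σ m + q P) → rg m` with at most `P` gadgets: the number of
touched strands does not depend on the order of `θ`.
-/

set_option autoImplicit false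

namespace Pool.Agent.Lib.MP_688fd0_co.SQ5.H20

open Function Equiv
open Pool.Agent.Lib.MP_688fd0_co.SQ5.H64

section WC

variable {S : Type*} [DecidableEq S]

/-- A window of length `n` with lower pair `e`, upper pair `f`, which moves at most `c` strands. -/
def WC (D : ℕ → Set (S × Bool → S × Bool)) (c n : ℕ) (e f : Sym2 S) : Prop :=
  ∃ A : Set S, A.ncard ≤ c ∧ WS D A n e f

variable {D : ℕ → Set (S × Bool → S × Bool)} {c c' m n : ℕ} {e f e' f' g : Sym2 S}

variable [Finite S]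

theorem WC.comp (hD : Closed D) (h : WC D c m e f) (ho : One f f') (h' : WC D c' n f' g) :
    WC D (c + c') (m + n) e g := by
  obtain ⟨A, a1, a2⟩ := h
  obtain ⟨B, b1, b2⟩ := h'
  exact ⟨A ∪ B, (Set.ncard_union_le A B).trans (Nat.add_le_add a1 b1), a2.comp' hD ho b2⟩

omit [Finite S] in
theorem WC.mono (h : WC D c n e f) (hc : c ≤ c') : WC D c' n e f := by
  obtain ⟨A, a1, a2⟩ := h
  exact ⟨A, a1.trans hc, a2⟩

theorem WC.pad (hD : Closed D) (hI : ∀ n, idd ∈ D n) (h : WC D c m e f) (hn : m ≤ n) : WC D c n e f := by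
  obtain ⟨A, a1, a2⟩ := h
  exact ⟨A, a1, a2.pad hD hI hn⟩

/-- a map which commutes with `Θ` commutes with its powers -/
theorem comm_zpow {X : Type*} (Θ : Perm X) (f : X → X) (hf : ∀ x, f (Θ x) = Θ (f x)) (q : ℤ) (x : X) :
    f ((Θ ^ q) x) = (Θ ^ q) (f x) := by
  have hf' : ∀ x, f (Θ⁻¹ x) = Θ⁻¹ (f x) := by
    intro x
    rw [Perm.eq_inv_iff_eq, ← hf, Perm.inv_def, apply_symm_apply]
  have hn : ∀ (n : ℕ) (x : X), f ((Θ ^ n) x) = (Θ ^ n) (f x) := by
    intro n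
    induction n with
    | zero => intro x; simp
    | succ n ih =>
      intro x
      rw [pow_succ', Perm.mul_apply, hf, ih, Perm.mul_apply]
  have hn' : ∀ (n : ℕ) (x : X), f ((Θ⁻¹ ^ n) x) = (Θ⁻¹ ^ n) (f x) := by
    intro n
    induction n with
    | zero => intro x; simp
    | succ n ih =>
      intro x
      rw [pow_succ', Perm.mul_apply, hf', ih, Perm.mul_apply]
  cases q with
  | ofNat n => rw [Int.ofNat_eq_natCast, zpow_natCast]; exact hn n x
  | negSucc n => rw [zpow_negSucc, ← inv_pow]; exact hn' (n + 1) x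

/-- THE CHAIN WITH DRIFT: `Θ` = translation by one vertical period, `κ` = the class modulo `Θ`. -/
theorem drift_chain {X Y : Type*} [Finite Y] (hD : Closed D) (T : X → X) (σ Θ : Perm X) (hTi : Injective T)
    (hTΘ : ∀ x, T (Θ x) = Θ (T x)) (hσΘ : ∀ x, σ (Θ x) = Θ (σ x)) (κ : X → Y)
    (hκ : ∀ x y, κ x = κ y → ∃ q : ℤ, y = (Θ ^ q) x) (p : X → Sym2 S) {ℓ : ℕ}
    (hT : ∀ x, WC D c ℓ (p x) (p (T x))) (hσ : ∀ x, One (p x) (p (σ x))) (x : X) :
    (∃ r, 0 < r ∧ r ≤ Nat.card Y ∧ ∃ q : ℤ, WC D (r * c) (r * ℓ) (p x) (p ((Θ ^ q) (σ⁻¹ x)))) ∧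
    (∃ r, 0 < r ∧ r ≤ Nat.card Y ∧ ∃ q : ℤ, WC D (r * c) (r * ℓ) (p ((Θ ^ q) (σ x))) (p x)) := by
  classical
  set ψ : X → X := fun x => σ (T x) with hψ
  have hψi : Injective ψ := σ.injective.comp hTi
  have hψΘ : ∀ x, ψ (Θ x) = Θ (ψ x) := by
    intro x
    change σ (T (Θ x)) = Θ (σ (T x))
    rw [hTΘ, hσΘ]
  have hψit : ∀ (i : ℕ) (q : ℤ) (x : X), ψ^[i] ((Θ ^ q) x) = (Θ ^ q) (ψ^[i] x) := by
    intro i q
    induction i with
    | zero => intro x; rfl
    | succ i ih =>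
      intro x
      rw [iterate_succ_apply, iterate_succ_apply, comm_zpow Θ ψ hψΘ, ih]
  have hit : ∀ (z : X) (i : ℕ), WC D ((i + 1) * c) ((i + 1) * ℓ) (p z) (p (T (ψ^[i] z))) := by
    intro z i
    induction i with
    | zero =>
      rw [zero_add, one_mul, one_mul]
      exact hT z
    | succ i ih =>
      have h2 := ih.comp hD (hσ _) (hT _)
      have e1 : (i + 1 + 1) * ℓ = (i + 1) * ℓ + ℓ := by ring
      have e2 : (i + 1 + 1) * c = (i + 1) * c + c := by ring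
      rw [e1, e2, iterate_succ_apply']
      exact h2
  -- return modulo `Θ`
  have ret : ∀ z : X, ∃ r, r + 1 ≤ Nat.card Y ∧ ∃ q : ℤ, ψ (ψ^[r] z) = (Θ ^ q) z := by
    intro z
    have := Fintype.ofFinite Y
    have hc : Fintype.card Y < Fintype.card (Fin (Nat.card Y + 1)) := by
      rw [Fintype.card_fin, Nat.card_eq_fintype_card]
      exact Nat.lt_succ_self _
    obtain ⟨i, j, hij, he⟩ := Fintype.exists_ne_map_eq_of_card_lt (fun i : Fin (Nat.card Y + 1) => κ (ψ^[i] z)) hc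
    have main : ∀ i j : ℕ, i < j → j ≤ Nat.card Y → κ (ψ^[i] z) = κ (ψ^[j] z) →
        ∃ r, r + 1 ≤ Nat.card Y ∧ ∃ q : ℤ, ψ (ψ^[r] z) = (Θ ^ q) z := by
      intro i j hij hj he
      obtain ⟨q, hq⟩ := hκ _ _ he
      refine ⟨j - i - 1, by omega, q, ?_⟩
      rw [← iterate_succ_apply' ψ (j - i - 1) z]
      apply hψi.iterate i
      rw [← iterate_add_apply, hψit, ← hq]
      congr 2
      omega
    rcases lt_or_gt_of_ne (fun h : (i : ℕ) = j => hij (Fin.ext h)) with h | h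
    · exact main i j h (by omega) he
    · exact main j i h (by omega) he.symm
  constructor
  · obtain ⟨r, r1, q, hq⟩ := ret x
    refine ⟨r + 1, by omega, r1, q, ?_⟩
    have h1 := hit x r
    have h2 : T (ψ^[r] x) = (Θ ^ q) (σ⁻¹ x) := by
      apply σ.injective
      rw [comm_zpow Θ σ hσΘ, Perm.inv_def, apply_symm_apply]
      exact hq
    rwa [h2] at h1
  · obtain ⟨r, r1, q, hq⟩ := ret (σ x)
    refine ⟨r + 1, by omega, r1, -q, ?_⟩
    have h1 := hit ((Θ ^ (-q)) (σ x)) r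
    have h2 : T (ψ^[r] ((Θ ^ (-q)) (σ x))) = x := by
      apply σ.injective
      change ψ (ψ^[r] ((Θ ^ (-q)) (σ x))) = σ x
      rw [hψit, comm_zpow Θ ψ hψΘ, hq, ← Perm.mul_apply, ← zpow_add, neg_add_cancel, zpow_zero, Perm.one_apply]
    rwa [h2] at h1

end WC

/-! ### One wall with drift -/

section Path

variable {S : Type*}

/-- The hole line, levels in `ℤ`. -/
def linZ (τ : ℤ → Perm S) (m : ℤ) : ℕ → S → S
  | 0, x => x
  | i + 1, x => τ (m + i) (linZ τ m i x)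

theorem linZ_add (τ : ℤ → Perm S) (m : ℤ) (i j : ℕ) (x : S) :
    linZ τ m (i + j) x = linZ τ (m + i) j (linZ τ m i x) := by
  induction j with
  | zero => rfl
  | succ j ih =>
    change τ (m + ((i + j : ℕ) : ℤ)) (linZ τ m (i + j) x) = τ (m + i + j) (linZ τ (m + i) j (linZ τ m i x))
    rw [ih]
    congr 2
    push_cast
    ring

theorem linZ_inj (τ : ℤ → Perm S) (m : ℤ) (i : ℕ) : Injective (linZ τ m i) := by
  induction i with
  | zero => exact injective_id
  | succ i ih => exact (τ (m + i)).injective.comp ih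

/-- the rung of level `m` -/
def rgZ (ω : ℤ → S) (m : ℤ) : Sym2 S := s(ω m, ω (m + 1))

/-- the hole line of `m` meets `ω` again after `i` blocks -/
def CloZ (ω : ℤ → S) (τ : ℤ → Perm S) (m : ℤ) (i : ℕ) : Prop := 0 < i ∧ linZ τ m i (ω m) = ω (m + i)

/-- A wall with drift. -/
structure HPath (ω : ℤ → S) (τ : ℤ → Perm S) (θ : Perm S) (P : ℕ) (M : Set ℤ) : Prop where
  pos : 0 < P
  om : ∀ m : ℤ, ω (m + P) = θ (ω m)
  ta : ∀ (m : ℤ) (x : S), τ (m + P) (θ x) = θ (τ m x)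
  per : ∀ m : ℤ, m + P ∈ M ↔ m ∈ M
  cl : ∀ m ∈ M, linZ τ m P (ω m) = ω (m + P)
  nxt : ∀ m ∈ M, ∀ i, CloZ ω τ m i → m + i ∈ M

namespace HPath

variable {ω : ℤ → S} {τ : ℤ → Perm S} {θ : Perm S} {P : ℕ} {M : Set ℤ}

theorem lin_shift (h : HPath ω τ θ P M) (m : ℤ) (i : ℕ) (x : S) : linZ τ (m + P) i (θ x) = θ (linZ τ m i x) := by
  induction i with
  | zero => rfl
  | succ i ih =>
    change τ (m + P + i) (linZ τ (m + P) i (θ x)) = θ (τ (m + i) (linZ τ m i x))
    rw [ih, add_right_comm, h.ta]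

theorem clo_shift (h : HPath ω τ θ P M) (m : ℤ) (i : ℕ) : CloZ ω τ (m + P) i ↔ CloZ ω τ m i := by
  unfold CloZ
  rw [h.om, h.lin_shift, add_right_comm, h.om, θ.apply_eq_iff_eq]

theorem ex (h : HPath ω τ θ P M) {m : ℤ} (hm : m ∈ M) : ∃ i, CloZ ω τ m i := ⟨P, h.pos, h.cl m hm⟩

open Classical in
/-- the number of blocks of the T-gadget of the rung `m` -/
noncomputable def nx (_h : HPath ω τ θ P M) (m : ℤ) : ℕ := if hm : ∃ i, CloZ ω τ m i then Nat.find hm else 0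

theorem nx_spec (h : HPath ω τ θ P M) {m : ℤ} (hm : m ∈ M) : CloZ ω τ m (h.nx m) := by
  classical
  rw [nx, dif_pos (h.ex hm)]
  exact Nat.find_spec (h.ex hm)

theorem nx_min (h : HPath ω τ θ P M) {m : ℤ} (hm : m ∈ M) {i : ℕ} (hi : i < h.nx m) : ¬ CloZ ω τ m i := by
  classical
  rw [nx, dif_pos (h.ex hm)] at hi
  exact Nat.find_min (h.ex hm) hi

theorem nx_le (h : HPath ω τ θ P M) {m : ℤ} (hm : m ∈ M) : h.nx m ≤ P := by
  by_contra hc
  exact h.nx_min hm (not_le.1 hc) ⟨h.pos, h.cl m hm⟩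

theorem nx_shift (h : HPath ω τ θ P M) {m : ℤ} (hm : m ∈ M) : h.nx (m + P) = h.nx m := by
  have hm' : m + P ∈ M := (h.per m).2 hm
  apply le_antisymm
  · by_contra hc
    exact h.nx_min hm' (not_le.1 hc) ((h.clo_shift m _).2 (h.nx_spec hm))
  · by_contra hc
    exact h.nx_min hm (not_le.1 hc) ((h.clo_shift m _).1 (h.nx_spec hm'))

theorem nx_inj_aux (h : HPath ω τ θ P M) {m m' : ℤ} (hm : m ∈ M) (hm' : m' ∈ M) (hlt : m < m') :
    m + h.nx m ≠ m' + h.nx m' := by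
  intro he
  obtain ⟨d, hd⟩ : ∃ d : ℕ, m' = m + (d + 1 : ℕ) := ⟨(m' - m - 1).toNat, by omega⟩
  subst hd
  have h1 := h.nx_spec hm
  have h2 := h.nx_spec hm'
  have h3 : h.nx m = d + 1 + h.nx (m + (d + 1 : ℕ)) := by omega
  have h4 : linZ τ m (h.nx m) (ω m) =
      linZ τ (m + (d + 1 : ℕ)) (h.nx (m + (d + 1 : ℕ))) (linZ τ m (d + 1) (ω m)) := by
    conv_lhs => rw [h3]
    exact linZ_add τ m (d + 1) _ _
  have h5 : linZ τ (m + (d + 1 : ℕ)) (h.nx (m + (d + 1 : ℕ))) (ω (m + (d + 1 : ℕ))) = ω (m + h.nx m) := by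
    rw [he]
    exact h2.2
  have h6 : linZ τ m (d + 1) (ω m) = ω (m + (d + 1 : ℕ)) := by
    apply linZ_inj τ (m + (d + 1 : ℕ)) (h.nx (m + (d + 1 : ℕ)))
    rw [← h4, h5]
    exact h1.2
  exact h.nx_min hm (i := d + 1) (by have := h2.1; omega) ⟨by omega, h6⟩

theorem nx_inj (h : HPath ω τ θ P M) {m m' : ℤ} (hm : m ∈ M) (hm' : m' ∈ M) (he : m + h.nx m = m' + h.nx m') :
    m = m' := by
  rcases lt_trichotomy m m' with h1 | h1 | h1
  · exact absurd he (h.nx_inj_aux hm hm' h1)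
  · exact h1
  · exact absurd he.symm (h.nx_inj_aux hm' hm h1)

theorem om_zpow (h : HPath ω τ θ P M) (m q : ℤ) : ω (m + q * P) = (θ ^ q) (ω m) := by
  have hn : ∀ (n : ℕ) (m : ℤ), ω (m + n * P) = (θ ^ n) (ω m) := by
    intro n
    induction n with
    | zero => intro m; simp
    | succ n ih =>
      intro m
      have e : m + ((n + 1 : ℕ) : ℤ) * P = m + n * P + P := by push_cast; ring
      rw [e, h.om, ih, pow_succ', Perm.mul_apply]
  cases q with
  | ofNat n => rw [Int.ofNat_eq_natCast, zpow_natCast]; exact hn n m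
  | negSucc n =>
    rw [zpow_negSucc, Perm.eq_inv_iff_eq, ← hn]
    congr 1
    rw [Int.negSucc_eq]
    push_cast
    ring

variable [DecidableEq S] [Finite S] {D : ℕ → Set (S × Bool → S × Bool)}

/-- THE CHAIN OF A WALL WITH DRIFT -/
theorem chain (h : HPath ω τ θ P M) (hD : Closed D) (hI : ∀ n, idd ∈ D n) {c ℓ : ℕ}
    (hw : ∀ m ∈ M, ∀ i, CloZ ω τ m i → (∀ i', i' < i → ¬ CloZ ω τ m i') → i ≤ P →
      WC D c ℓ (rgZ ω m) (rgZ ω (m + i)))
    (σ : Perm ℤ) (hσP : ∀ m : ℤ, σ (m + P) = σ m + P) (hσM : ∀ m, σ m ∈ M ↔ m ∈ M)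
    (hσ : ∀ m ∈ M, One (rgZ ω m) (rgZ ω (σ m))) {m : ℤ} (hm : m ∈ M) :
    (∃ q : ℤ, WC D (P * c) (P * ℓ) (rgZ ω m) (rgZ ω (σ⁻¹ m + q * P))) ∧
    (∃ q : ℤ, WC D (P * c) (P * ℓ) (rgZ ω (σ m + q * P)) (rgZ ω m)) := by
  have : NeZero P := ⟨h.pos.ne'⟩
  have : Finite (ZMod P) := Finite.of_fintype _
  let T : {m // m ∈ M} → {m // m ∈ M} := fun x => ⟨x.1 + h.nx x.1, h.nxt x.1 x.2 _ (h.nx_spec x.2)⟩
  let Θ : Perm {m // m ∈ M} := (Equiv.addRight (P : ℤ)).subtypePerm (fun x => h.per x)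
  let σ' : Perm {m // m ∈ M} := σ.subtypePerm hσM
  have hΘ : ∀ (q : ℤ) (x : {m // m ∈ M}), ((Θ ^ q) x).1 = x.1 + q * P := by
    intro q x
    have hn : ∀ (n : ℕ) (x : {m // m ∈ M}), ((Θ ^ n) x).1 = x.1 + n * P := by
      intro n
      induction n with
      | zero => intro x; simp
      | succ n ih =>
        intro x
        rw [pow_succ', Perm.mul_apply]
        change ((Θ ^ n) x).1 + (P : ℤ) = _
        rw [ih]
        push_cast
        ring
    cases q with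
    | ofNat n => rw [Int.ofNat_eq_natCast, zpow_natCast]; exact hn n x
    | negSucc n =>
      have h1 := hn (n + 1) ((Θ ^ Int.negSucc n) x)
      rw [zpow_negSucc, ← Perm.mul_apply, mul_inv_cancel, Perm.one_apply] at h1
      rw [zpow_negSucc]
      rw [Int.negSucc_eq]
      push_cast at h1 ⊢
      linarith
  have hTi : Injective T := by
    intro x y hxy
    exact Subtype.ext (h.nx_inj x.2 y.2 (congrArg Subtype.val hxy))
  have hTΘ : ∀ x, T (Θ x) = Θ (T x) := by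
    intro x
    apply Subtype.ext
    change x.1 + (P : ℤ) + h.nx (x.1 + P) = x.1 + h.nx x.1 + P
    rw [h.nx_shift x.2]
    ring
  have hσΘ : ∀ x, σ' (Θ x) = Θ (σ' x) := by
    intro x
    apply Subtype.ext
    exact hσP x.1
  have hκ : ∀ x y : {m // m ∈ M}, ((x.1 : ℤ) : ZMod P) = ((y.1 : ℤ) : ZMod P) → ∃ q : ℤ, y = (Θ ^ q) x := by
    intro x y hxy
    rw [ZMod.intCast_eq_intCast_iff_dvd_sub] at hxy
    obtain ⟨q, hq⟩ := hxy
    refine ⟨q, Subtype.ext ?_⟩
    rw [hΘ]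
    linarith
  have hc : Nat.card (ZMod P) = P := Nat.card_zmod P
  obtain ⟨⟨r, r1, r2, q, r3⟩, ⟨r', r1', r2', q', r3'⟩⟩ := drift_chain hD T σ' Θ hTi hTΘ hσΘ
    (fun x => ((x.1 : ℤ) : ZMod P)) hκ (fun x => rgZ ω x.1) (c := c) (ℓ := ℓ)
    (fun x => hw x.1 x.2 _ (h.nx_spec x.2) (fun i' hi' => h.nx_min x.2 hi') (h.nx_le x.2))
    (fun x => hσ x.1 x.2) ⟨m, hm⟩
  rw [hc] at r2 r2'
  constructor
  · refine ⟨q, ?_⟩
    have e : ((Θ ^ q) (σ'⁻¹ ⟨m, hm⟩)).1 = σ⁻¹ m + q * P := by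
      rw [hΘ]
      have : σ'⁻¹ = (σ⁻¹).subtypePerm (fun x => by rw [← hσM (σ⁻¹ x), Perm.inv_def, apply_symm_apply]) := by
        rw [inv_eq_iff_mul_eq_one]
        apply Equiv.ext
        intro x
        apply Subtype.ext
        change σ (σ⁻¹ x.1) = x.1
        rw [Perm.inv_def, apply_symm_apply]
      rw [this]
      rfl
    simp only [e] at r3
    exact (r3.mono (Nat.mul_le_mul_right _ r2)).pad hD hI (Nat.mul_le_mul_right _ r2)
  · refine ⟨q', ?_⟩
    have e : ((Θ ^ q') (σ' ⟨m, hm⟩)).1 = σ m + q' * P := hΘ _ _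
    simp only [e] at r3'
    exact (r3'.mono (Nat.mul_le_mul_right _ r2')).pad hD hI (Nat.mul_le_mul_right _ r2')

end HPath

end Path

end Pool.Agent.Lib.MP_688fd0_co.SQ5.H20
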