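import Pool.Agent.Lib.MP_688fd0_co.SQ5.H20.Drift

/-!
MP_688fd0_co, type C2 (helper20): chains of T-gadgets with drift, abstract closings.

`HPathC ω Clo θ P M`: as `HPath` of Drift.lean, with a closing predicate `Clo m i` (the gadget of the rung `m` may end after `i`
blocks) instead of the hole lines. `HPathC.chain`: the same conclusion.
-/

set_option autoImplicit false

namespace Pool.Agent.Lib.MP_688fd0_co.SQ5.H20

open Function Equiv
open Pool.Agent.Lib.MP_688fd0_co.SQ5.H64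

variable {S : Type*}

/-- A wall with drift and abstract closings. -/
structure HPathC (ω : ℤ → S) (Clo : ℤ → ℕ → Prop) (θ : Perm S) (P : ℕ) (M : Set ℤ) : Prop where
  pos : 0 < P
  om : ∀ m : ℤ, ω (m + P) = θ (ω m)
  per : ∀ m : ℤ, m + P ∈ M ↔ m ∈ M
  clp : ∀ m i, Clo m i → 0 < i
  cl : ∀ m ∈ M, Clo m P
  sh : ∀ m i, Clo (m + P) i ↔ Clo m i
  back : ∀ m ∈ M, ∀ d i : ℕ, 0 < d → m + d ∈ M → Clo m (d + i) → Clo (m + d) i → Clo m d
  nxt : ∀ m ∈ M, ∀ i : ℕ, Clo m i → m + i ∈ M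

namespace HPathC

variable {ω : ℤ → S} {Clo : ℤ → ℕ → Prop} {θ : Perm S} {P : ℕ} {M : Set ℤ}

theorem ex (h : HPathC ω Clo θ P M) {m : ℤ} (hm : m ∈ M) : ∃ i, Clo m i := ⟨P, h.cl m hm⟩

open Classical in
/-- the number of blocks of the T-gadget of the rung `m` -/
noncomputable def nx (_h : HPathC ω Clo θ P M) (m : ℤ) : ℕ := if hm : ∃ i, Clo m i then Nat.find hm else 0

theorem nx_spec (h : HPathC ω Clo θ P M) {m : ℤ} (hm : m ∈ M) : Clo m (h.nx m) := by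
  classical
  rw [nx, dif_pos (h.ex hm)]
  exact Nat.find_spec (h.ex hm)

theorem nx_min (h : HPathC ω Clo θ P M) {m : ℤ} (hm : m ∈ M) {i : ℕ} (hi : i < h.nx m) : ¬ Clo m i := by
  classical
  rw [nx, dif_pos (h.ex hm)] at hi
  exact Nat.find_min (h.ex hm) hi

theorem nx_le (h : HPathC ω Clo θ P M) {m : ℤ} (hm : m ∈ M) : h.nx m ≤ P := by
  by_contra hc
  exact h.nx_min hm (not_le.1 hc) (h.cl m hm)

theorem nx_shift (h : HPathC ω Clo θ P M) {m : ℤ} (hm : m ∈ M) : h.nx (m + P) = h.nx m := by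
  have hm' : m + P ∈ M := (h.per m).2 hm
  apply le_antisymm
  · by_contra hc
    exact h.nx_min hm' (not_le.1 hc) ((h.sh m _).2 (h.nx_spec hm))
  · by_contra hc
    exact h.nx_min hm (not_le.1 hc) ((h.sh m _).1 (h.nx_spec hm'))

theorem nx_inj_aux (h : HPathC ω Clo θ P M) {m m' : ℤ} (hm : m ∈ M) (hm' : m' ∈ M) (hlt : m < m') :
    m + h.nx m ≠ m' + h.nx m' := by
  intro he
  obtain ⟨d, hd⟩ : ∃ d : ℕ, m' = m + (d + 1 : ℕ) := ⟨(m' - m - 1).toNat, by omega⟩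
  subst hd
  have h3 : h.nx m = d + 1 + h.nx (m + (d + 1 : ℕ)) := by omega
  have h4 := h.nx_spec hm
  rw [h3] at h4
  have h5 := h.clp _ _ (h.nx_spec hm')
  exact h.nx_min hm (i := d + 1) (by omega) (h.back m hm (d + 1) _ (by omega) hm' h4 (h.nx_spec hm'))

theorem nx_inj (h : HPathC ω Clo θ P M) {m m' : ℤ} (hm : m ∈ M) (hm' : m' ∈ M) (he : m + h.nx m = m' + h.nx m') :
    m = m' := by
  rcases lt_trichotomy m m' with h1 | h1 | h1
  · exact absurd he (h.nx_inj_aux hm hm' h1)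
  · exact h1
  · exact absurd he.symm (h.nx_inj_aux hm' hm h1)

theorem om_zpow (h : HPathC ω Clo θ P M) (m q : ℤ) : ω (m + q * P) = (θ ^ q) (ω m) := by
  have hn : ∀ (n : ℕ) (m : ℤ), ω (m + n * P) = (θ ^ n) (ω m) := by
    intro n
    induction n with
    | zero => intro m; simp
    | succ n ih =>
      intro m
      have e : m + ((n + 1 : ℕ) : ℤ) * P = m + n * P + P := by push_cast; ring
      rw [e, h.om, ih, pow_succ', Perm.mul_apply]
  cases q with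
  | ofNat n => rw [Int.ofNat_eq_natCast, zpow_natCast]; exact hn n m
  | negSucc n =>
    rw [zpow_negSucc, Perm.eq_inv_iff_eq, ← hn]
    congr 1
    rw [Int.negSucc_eq]
    push_cast
    ring

variable [DecidableEq S] [Finite S] {D : ℕ → Set (S × Bool → S × Bool)}

/-- THE CHAIN OF A WALL WITH DRIFT -/
theorem chain (h : HPathC ω Clo θ P M) (hD : Closed D) (hI : ∀ n, idd ∈ D n) {c ℓ : ℕ}
    (hw : ∀ m ∈ M, ∀ i, Clo m i → (∀ i', i' < i → ¬ Clo m i') → i ≤ P → WC D c ℓ (rgZ ω m) (rgZ ω (m + i)))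
    (σ : Perm ℤ) (hσP : ∀ m : ℤ, σ (m + P) = σ m + P) (hσM : ∀ m, σ m ∈ M ↔ m ∈ M)
    (hσ : ∀ m ∈ M, One (rgZ ω m) (rgZ ω (σ m))) {m : ℤ} (hm : m ∈ M) :
    (∃ q : ℤ, WC D (P * c) (P * ℓ) (rgZ ω m) (rgZ ω (σ⁻¹ m + q * P))) ∧
    (∃ q : ℤ, WC D (P * c) (P * ℓ) (rgZ ω (σ m + q * P)) (rgZ ω m)) := by
  have : NeZero P := ⟨h.pos.ne'⟩
  have : Finite (ZMod P) := Finite.of_fintype _
  let T : {m // m ∈ M} → {m // m ∈ M} := fun x => ⟨x.1 + h.nx x.1, h.nxt x.1 x.2 _ (h.nx_spec x.2)⟩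
  let Θ : Perm {m // m ∈ M} := (Equiv.addRight (P : ℤ)).subtypePerm (fun x => h.per x)
  let σ' : Perm {m // m ∈ M} := σ.subtypePerm hσM
  have hΘ : ∀ (q : ℤ) (x : {m // m ∈ M}), ((Θ ^ q) x).1 = x.1 + q * P := by
    intro q x
    have hn : ∀ (n : ℕ) (x : {m // m ∈ M}), ((Θ ^ n) x).1 = x.1 + n * P := by
      intro n
      induction n with
      | zero => intro x; simp
      | succ n ih =>
        intro x
        rw [pow_succ', Perm.mul_apply]
        change ((Θ ^ n) x).1 + (P : ℤ) = _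
        rw [ih]
        push_cast
        ring
    cases q with
    | ofNat n => rw [Int.ofNat_eq_natCast, zpow_natCast]; exact hn n x
    | negSucc n =>
      have h1 := hn (n + 1) ((Θ ^ Int.negSucc n) x)
      rw [zpow_negSucc, ← Perm.mul_apply, mul_inv_cancel, Perm.one_apply] at h1
      rw [zpow_negSucc]
      rw [Int.negSucc_eq]
      push_cast at h1 ⊢
      linarith
  have hTi : Injective T := by
    intro x y hxy
    exact Subtype.ext (h.nx_inj x.2 y.2 (congrArg Subtype.val hxy))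
  have hTΘ : ∀ x, T (Θ x) = Θ (T x) := by
    intro x
    apply Subtype.ext
    change x.1 + (P : ℤ) + h.nx (x.1 + P) = x.1 + h.nx x.1 + P
    rw [h.nx_shift x.2]
    ring
  have hσΘ : ∀ x, σ' (Θ x) = Θ (σ' x) := by
    intro x
    apply Subtype.ext
    exact hσP x.1
  have hκ : ∀ x y : {m // m ∈ M}, ((x.1 : ℤ) : ZMod P) = ((y.1 : ℤ) : ZMod P) → ∃ q : ℤ, y = (Θ ^ q) x := by
    intro x y hxy
    rw [ZMod.intCast_eq_intCast_iff_dvd_sub] at hxy
    obtain ⟨q, hq⟩ := hxy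
    refine ⟨q, Subtype.ext ?_⟩
    rw [hΘ]
    linarith
  have hc : Nat.card (ZMod P) = P := Nat.card_zmod P
  obtain ⟨⟨r, r1, r2, q, r3⟩, ⟨r', r1', r2', q', r3'⟩⟩ := drift_chain hD T σ' Θ hTi hTΘ hσΘ
    (fun x => ((x.1 : ℤ) : ZMod P)) hκ (fun x => rgZ ω x.1) (c := c) (ℓ := ℓ)
    (fun x => hw x.1 x.2 _ (h.nx_spec x.2) (fun i' hi' => h.nx_min x.2 hi') (h.nx_le x.2))
    (fun x => hσ x.1 x.2) ⟨m, hm⟩
  rw [hc] at r2 r2'
  constructor
  · refine ⟨q, ?_⟩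
    have e : ((Θ ^ q) (σ'⁻¹ ⟨m, hm⟩)).1 = σ⁻¹ m + q * P := by
      rw [hΘ]
      have : σ'⁻¹ = (σ⁻¹).subtypePerm (fun x => by rw [← hσM (σ⁻¹ x), Perm.inv_def, apply_symm_apply]) := by
        rw [inv_eq_iff_mul_eq_one]
        apply Equiv.ext
        intro x
        apply Subtype.ext
        change σ (σ⁻¹ x.1) = x.1
        rw [Perm.inv_def, apply_symm_apply]
      rw [this]
      rfl
    simp only [e] at r3
    exact (r3.mono (Nat.mul_le_mul_right _ r2)).pad hD hI (Nat.mul_le_mul_right _ r2)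
  · refine ⟨q', ?_⟩
    have e : ((Θ ^ q') (σ' ⟨m, hm⟩)).1 = σ m + q' * P := hΘ _ _
    simp only [e] at r3'
    exact (r3'.mono (Nat.mul_le_mul_right _ r2')).pad hD hI (Nat.mul_le_mul_right _ r2')

end HPathC

end Pool.Agent.Lib.MP_688fd0_co.SQ5.H20
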