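import Pool.Agent.Lib.MP_688fd0_co.SQ5.H20.RunD
import Pool.Agent.Lib.MP_688fd0_co.SQ5.H20.DriftC
import Pool.Agent.Lib.MP_688fd0_co.SQ5.H22.Gad4

/-!
MP_688fd0_co, type C2, FAR-3, design B' (helper20), row HPATH: INTERFACE.

`wd J x` = the normal strip of the T-gadget of a rung at the wall `J` at the phase `x` (helper22's `Aw (wd J x) x = J`).
`CloW a b t x i`: the hole line which starts at the phase `x` is again at the wall after `i` levels. `Mw D ph J` = the levels
whose T-gadget exists.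
-/

set_option autoImplicit false

namespace Pool.Agent.Lib.MP_688fd0_co.SQ5.H20

open Equiv
open Pool.Agent.Lib.MP_688fd0_co.OSF Pool.Agent.Lib.MP_688fd0_co.SQ5.H95 Pool.Agent.Lib.MP_688fd0_co.SQ5.H76

universe u v

/-- The strip of the T-gadget of a rung at the wall `J`, phase `x`. -/
def wd (J x : ℤ) : ℤ := if x % 8 = 1 ∨ x % 8 = 2 ∨ x % 8 = 3 ∨ x % 8 = 4 then J else J - 1

theorem Aw_wd (J x : ℤ) : H22.Aw (wd J x) x = J := by
  unfold H22.Aw wd
  split_ifs <;> ring

theorem wd_cases (J x : ℤ) : wd J x = J ∨ wd J x = J - 1 := by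
  unfold wd
  split_ifs
  · exact Or.inl rfl
  · exact Or.inr rfl

theorem wd_add (J x y : ℤ) : wd (J + y) x = wd J x + y := by
  unfold wd
  split_ifs <;> ring

theorem wd_per (J x k : ℤ) : wd J (x + 8 * k) = wd J x := by
  unfold wd
  have : (x + 8 * k) % 8 = x % 8 := by omega
  rw [this]

/-- Two phases of the same class. -/
theorem Aw_iff (J x x' : ℤ) : H22.Aw (wd J x) x' = J ↔ wd 0 x' = wd 0 x := by
  unfold H22.Aw wd
  split_ifs <;> constructor <;> intro h <;> omega

/-- The hole line is at the wall again. -/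
def CloW {Q : Type*} [Group Q] (a b t : Q) (x : ℤ) (i : ℕ) : Prop := 0 < i ∧ wd 0 (x + i) = wd 0 x ∧ H22.CloG a b t x i

/-- The levels whose T-gadget exists. -/
def Mw (D : Bd) (ph J : ℤ) : Set ℤ := {m | D.hw (wd J (ph + m)) = 2}

end Pool.Agent.Lib.MP_688fd0_co.SQ5.H20
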