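import Pool.Agent.Lib.MP_688fd0_co.SQ5.H64.Win

/-!
MP_688fd0_co, type C2 (helper20): from T-gadgets to flat P3's.

`Av m n d`: the blocks `m .. n - 1` have an inside with the diagram `d`. `WW Av m n T e f`: a window of rank `|S| - 2` with the
lower pair `e`, the upper pair `f`, which moves only strands of `T`. Windows whose pairs share exactly one strand may be
stacked (`WW.comp`), and if the lower and the upper pair of one window share exactly one strand then a power of it is the flat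
P3 (`WW.p3`): `π ^ N! = 1` if `|T| ≤ N`.
-/

set_option autoImplicit false

namespace Pool.Agent.Lib.MP_688fd0_co.SQ5.H20

open Function Equiv
open Pool.Agent.Lib.MP_688fd0_co.SQ5.H64

variable {S : Type*} [DecidableEq S]

/-- The pair of `σ` as a permutation which fixes everything outside of `T`. -/
def FixOut (T : Finset S) (σ : Perm S) : Prop := ∀ s, s ∉ T → σ s = s

omit [DecidableEq S] in
theorem FixOut.mul {T T' : Finset S} [DecidableEq S] {σ τ : Perm S} (h : FixOut T σ) (h' : FixOut T' τ) :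
    FixOut (T ∪ T') (σ * τ) := by
  intro s hs
  rw [Finset.mem_union, not_or] at hs
  rw [Perm.mul_apply, h' s hs.2, h s hs.1]

theorem FixOut.mono {T T' : Finset S} {σ : Perm S} (h : FixOut T σ) (hT : T ⊆ T') : FixOut T' σ :=
  fun s hs => h s fun h' => hs (hT h')

theorem FixOut.swap {T : Finset S} {x y : S} (hx : x ∈ T) (hy : y ∈ T) : FixOut T (swap x y) := by
  intro s hs
  exact swap_apply_of_ne_of_ne (fun h => hs (h ▸ hx)) (fun h => hs (h ▸ hy))

theorem FixOut.mem {T : Finset S} {σ : Perm S} (h : FixOut T σ) {s : S} (hs : s ∈ T) : σ s ∈ T := by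
  by_contra h'
  have h1 := h _ h'
  have h2 : σ s = s := σ.injective h1
  rw [h2] at h'
  exact h' hs

/-- A permutation which fixes everything outside of `T`, `|T| ≤ N`, has `σ ^ N! = 1`. -/
theorem FixOut.pow_factorial {T : Finset S} {σ : Perm S} (h : FixOut T σ) {N : ℕ} (hN : T.card ≤ N) :
    σ ^ N.factorial = 1 := by
  -- restrict to `T`
  have hmem : ∀ x, σ x ∈ T ↔ x ∈ T := by
    intro x
    refine ⟨fun hx => ?_, h.mem⟩
    by_contra h'
    rw [h x h'] at hx
    exact h' hx
  set ρ : Perm {x // x ∈ T} := σ.subtypePerm hmem with hρ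
  have h1 : ρ ^ N.factorial = 1 := by
    have h2 : orderOf ρ ∣ Fintype.card (Perm {x // x ∈ T}) := orderOf_dvd_card
    rw [Fintype.card_perm, Fintype.card_coe] at h2
    exact orderOf_dvd_iff_pow_eq_one.1 (h2.trans (Nat.factorial_dvd_factorial hN))
  ext s
  by_cases hs : s ∈ T
  · have h3 : (ρ ^ N.factorial) ⟨s, hs⟩ = ⟨s, hs⟩ := by rw [h1]; rfl
    rw [hρ, Perm.subtypePerm_pow] at h3
    have h4 := congrArg Subtype.val h3
    simpa using h4
  · have h5 : ∀ n : ℕ, (σ ^ n) s = s := by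
      intro n
      induction n with
      | zero => simp
      | succ n ih => rw [pow_succ, Perm.mul_apply, h s hs, ih]
    rw [h5]
    simp

/-- `Av m n d`: the blocks `m .. n - 1` have an inside with the diagram `d`; closed under stacking, straight insides exist. -/
structure Avail (Av : ℕ → ℕ → (S × Bool → S × Bool) → Prop) : Prop where
  stk : ∀ m n p d e, m ≤ n → n ≤ p → IsPair d → IsPair e → Av m n d → Av n p e → NoLoop d e → Av m p (stk d e)
  idd : ∀ m n, m ≤ n → Av m n idd

omit [DecidableEq S] in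
theorem noLoop_idd_right (d : S × Bool → S × Bool) : NoLoop d (idd (S := S)) := by
  have h1 : ∀ s : S, Con (lvl d (idd (S := S))) glu (out (s, true)) ((s, false), true) := by
    intro s
    exact Relation.ReflTransGen.single (Or.inl rfl)
  rintro ⟨⟨s, _ | _⟩, _ | _⟩
  · exact ⟨(s, false), Con.refl' _⟩
  · exact ⟨(s, true), h1 s⟩
  · exact ⟨(s, true), (h1 s).trans' (con_right _)⟩
  · exact ⟨(s, true), Con.refl' _⟩

/-- A window of rank `|S| - 2` with the lower pair `e` and the upper pair `f` which moves only strands of `T`. -/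
def WW (Av : ℕ → ℕ → (S × Bool → S × Bool) → Prop) (m n : ℕ) (T : Finset S) (e f : Sym2 S) : Prop :=
  ∃ (j k : S) (σ : Perm S), j ≠ k ∧ e = s(j, k) ∧ f = s(σ j, σ k) ∧ FixOut T σ ∧ j ∈ T ∧ k ∈ T ∧
    Av m n (win j k σ)

theorem WW.mono {Av : ℕ → ℕ → (S × Bool → S × Bool) → Prop} {m n : ℕ} {T T' : Finset S} {e f : Sym2 S}
    (h : WW Av m n T e f) (hT : T ⊆ T') : WW Av m n T' e f := by
  obtain ⟨j, k, σ, h1, h2, h3, h4, h5, h6, h7⟩ := h
  exact ⟨j, k, σ, h1, h2, h3, h4.mono hT, hT h5, hT h6, h7⟩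

/-- The normal form with a given order of the upper pair. -/
theorem WW.up_form {Av : ℕ → ℕ → (S × Bool → S × Bool) → Prop} {m n : ℕ} {T : Finset S} {e : Sym2 S} {x y : S}
    (h : WW Av m n T e s(x, y)) :
    ∃ (j k : S) (σ : Perm S), j ≠ k ∧ e = s(j, k) ∧ σ j = y ∧ σ k = x ∧ FixOut T σ ∧ j ∈ T ∧ k ∈ T ∧
      Av m n (win j k σ) := by
  obtain ⟨j, k, σ, h1, h2, h3, h4, h5, h6, h7⟩ := h
  rcases Sym2.eq_iff.1 h3 with ⟨a, b⟩ | ⟨a, b⟩
  · exact ⟨k, j, σ, h1.symm, by rw [h2, Sym2.eq_swap], b.symm, a.symm, h4, h6, h5, by rwa [win_comm h1]⟩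
  · exact ⟨j, k, σ, h1, h2, b.symm, a.symm, h4, h5, h6, h7⟩

/-- The normal form with a given order of the lower pair. -/
theorem WW.low_form {Av : ℕ → ℕ → (S × Bool → S × Bool) → Prop} {m n : ℕ} {T : Finset S} {f : Sym2 S} {x y : S}
    (h : WW Av m n T s(x, y) f) :
    ∃ σ : Perm S, x ≠ y ∧ f = s(σ x, σ y) ∧ FixOut T σ ∧ x ∈ T ∧ y ∈ T ∧ Av m n (win x y σ) := by
  obtain ⟨j, k, σ, h1, h2, h3, h4, h5, h6, h7⟩ := h
  rcases Sym2.eq_iff.1 h2 with ⟨rfl, rfl⟩ | ⟨rfl, rfl⟩
  · exact ⟨σ, h1, h3, h4, h5, h6, h7⟩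
  · exact ⟨σ, h1.symm, by rw [h3, Sym2.eq_swap], h4, h6, h5, by rwa [win_comm h1]⟩

variable [Finite S]

/-- Windows whose pairs share exactly one strand may be stacked. -/
theorem WW.comp {Av : ℕ → ℕ → (S × Bool → S × Bool) → Prop} (hA : Avail Av) {m n p : ℕ} (hmn : m ≤ n) (hnp : n ≤ p)
    {T T' : Finset S} {e g : Sym2 S} {x y z : S} (hxy : x ≠ y) (hyz : y ≠ z)
    (h : WW Av m n T e s(x, y)) (h' : WW Av n p T' s(x, z) g) : WW Av m p (T ∪ T') e g := by
  obtain ⟨j, k, σ, h1, h2, h3, h4, h5, h6, h7, h8⟩ := h.up_form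
  obtain ⟨τ, g1, g2, g3, g4, g5, g6⟩ := h'.low_form
  subst h3
  subst h4
  have hc1 : z ≠ σ j := hyz.symm
  have hc2 : z ≠ σ k := g1.symm
  have hs := stk_win (τ := τ) h1 hc1 hc2
  have hn := noLoop_win (τ := τ) h1 hc1 hc2
  refine ⟨j, k, τ * swap (σ j) z * σ, h1, h2, ?_, ?_, Finset.mem_union_left _ h6, Finset.mem_union_left _ h7, ?_⟩
  · rw [Perm.mul_apply, Perm.mul_apply, Perm.mul_apply, Perm.mul_apply, swap_apply_left,
      swap_apply_of_ne_of_ne hxy hc2.symm, g2, Sym2.eq_swap]
  · have a1 : FixOut (T ∪ T') τ := g3.mono Finset.subset_union_right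
    have a2 : FixOut (T ∪ T') σ := h5.mono Finset.subset_union_left
    have a3 : FixOut (T ∪ T') (swap (σ j) z) :=
      FixOut.swap (Finset.mem_union_left _ (h5.mem h6)) (Finset.mem_union_right _ g5)
    have := (a1.mul a3).mul a2
    rwa [Finset.union_idempotent, Finset.union_idempotent] at this
  · rw [← hs]
    exact hA.stk m n p _ _ hmn hnp (win_pair h1 σ) (win_pair g1 τ) h8 g6 hn

theorem WW.wait {Av : ℕ → ℕ → (S × Bool → S × Bool) → Prop} (hA : Avail Av) {m n p : ℕ} (hmn : m ≤ n) (hnp : n ≤ p)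
    {T : Finset S} {e f : Sym2 S} (h : WW Av m n T e f) : WW Av m p T e f := by
  obtain ⟨j, k, σ, h1, h2, h3, h4, h5, h6, h7⟩ := h
  refine ⟨j, k, σ, h1, h2, h3, h4, h5, h6, ?_⟩
  have := hA.stk m n p _ _ hmn hnp (win_pair h1 σ) idd_pair h7 (hA.idd n p hnp) (noLoop_idd_right _)
  rwa [stk_idd_right (win_pair h1 σ)] at this

/-- Two windows in the form of the power trick. -/
theorem stk_pow {x y z : S} (hxy : x ≠ y) (hxz : x ≠ z) (hyz : y ≠ z) {π ρ : Perm S} (hx : π x = x) (hy : π y = y) :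
    stk (win x y (swap y z * π)) (win x y (swap y z * ρ)) = win x y (swap y z * (ρ * π)) ∧
      NoLoop (win x y (swap y z * π)) (win x y (swap y z * ρ)) := by
  have e1 : (swap y z * π) x = x := by
    rw [Perm.mul_apply, hx, swap_apply_of_ne_of_ne hxy hxz]
  have e2 : (swap y z * π) y = z := by
    rw [Perm.mul_apply, hy, swap_apply_left]
  have hc1 : y ≠ (swap y z * π) y := by rw [e2]; exact hyz
  have hc2 : y ≠ (swap y z * π) x := by rw [e1]; exact hxy.symm
  have hs := stk_win (τ := swap y z * ρ) hxy.symm hc1 hc2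
  have hn := noLoop_win (τ := swap y z * ρ) hxy.symm hc1 hc2
  rw [e1, win_comm hxy] at hs hn
  refine ⟨?_, hn⟩
  rw [hs, e2, win_comm hxy]
  congr 1
  rw [mul_assoc (swap y z * ρ), ← mul_assoc (swap z y) (swap y z) π, swap_comm z y, swap_mul_self, one_mul, mul_assoc]

/-- THE POWER TRICK: if the pairs of a window share exactly one strand `x` then some power of it is the flat P3. -/
theorem WW.p3 {Av : ℕ → ℕ → (S × Bool → S × Bool) → Prop} (hA : Avail Av) {m P : ℕ}
    (hP : ∀ a b d, m ≤ a → Av a b d → Av (a + P) (b + P) d)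
    {T : Finset S} {N : ℕ} (hN : T.card ≤ N) {x y z : S} (hxz : x ≠ z) (hyz : y ≠ z)
    (h : WW Av m (m + P) T s(x, y) s(x, z)) : Av m (m + N.factorial * P) (p3 x y z) := by
  obtain ⟨σ, hxy, h1, h2, h3, h4, h5⟩ := h.low_form
  -- the form `σ x = x`, `σ y = z`
  obtain ⟨σ, h1, h2, h5⟩ : ∃ σ : Perm S, (σ x = x ∧ σ y = z) ∧ FixOut T σ ∧ Av m (m + P) (win x y σ) := by
    rcases Sym2.eq_iff.1 h1 with ⟨a, b⟩ | ⟨a, b⟩
    · exact ⟨σ, ⟨a.symm, b.symm⟩, h2, h5⟩
    · refine ⟨σ * swap x y, ⟨?_, ?_⟩, ?_, ?_⟩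
      · rw [Perm.mul_apply, swap_apply_left, ← a]
      · rw [Perm.mul_apply, swap_apply_right, ← b]
      · have := h2.mul (FixOut.swap h3 h4)
        rwa [Finset.union_idempotent] at this
      · rwa [win_swap hxy]
  have hz : z ∈ T := by
    rw [← h1.2]
    exact h2.mem h4
  set π : Perm S := swap y z * σ with hπ
  have hσ : σ = swap y z * π := by rw [hπ, ← mul_assoc, swap_mul_self, one_mul]
  have px : π x = x := by rw [hπ, Perm.mul_apply, h1.1, swap_apply_of_ne_of_ne hxy hxz]
  have py : π y = y := by rw [hπ, Perm.mul_apply, h1.2, swap_apply_right]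
  have pT : FixOut T π := by
    have := (FixOut.swap h4 hz).mul h2
    rwa [Finset.union_idempotent] at this
  have hpx : ∀ i : ℕ, (π ^ i) x = x := by
    intro i
    induction i with
    | zero => simp
    | succ i ih => rw [pow_succ, Perm.mul_apply, px, ih]
  have hpy : ∀ i : ℕ, (π ^ i) y = y := by
    intro i
    induction i with
    | zero => simp
    | succ i ih => rw [pow_succ, Perm.mul_apply, py, ih]
  have hsh : ∀ i a b d, m ≤ a → Av a b d → Av (a + i * P) (b + i * P) d := by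
    intro i
    induction i with
    | zero => intro a b d _ h; simpa using h
    | succ i ih =>
      intro a b d ha h
      have := hP _ _ d (by omega) (ih a b d ha h)
      have e1 : a + (i + 1) * P = a + i * P + P := by ring
      have e2 : b + (i + 1) * P = b + i * P + P := by ring
      rw [e1, e2]
      exact this
  have key : ∀ i : ℕ, Av m (m + (i + 1) * P) (win x y (swap y z * π ^ (i + 1))) := by
    intro i
    induction i with
    | zero =>
      rw [zero_add, one_mul, pow_one, ← hσ]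
      exact h5
    | succ i ih =>
      obtain ⟨k1, k2⟩ := stk_pow (ρ := π) hxy hxz hyz (hpx (i + 1)) (hpy (i + 1))
      have k3 := hsh (i + 1) m (m + P) _ le_rfl h5
      rw [hσ] at k3
      have k4 := hA.stk m (m + (i + 1) * P) (m + P + (i + 1) * P) _ _ (by omega) (by omega) (win_pair hxy _)
        (win_pair hxy _) ih k3 k2
      rw [k1, ← pow_succ'] at k4
      have e : m + (i + 1 + 1) * P = m + P + (i + 1) * P := by ring
      rw [e]
      exact k4
  have hf : N.factorial = N.factorial - 1 + 1 := (Nat.sub_add_cancel N.factorial_pos).symm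
  have := key (N.factorial - 1)
  rw [← hf, pT.pow_factorial hN, mul_one] at this
  exact this

end Pool.Agent.Lib.MP_688fd0_co.SQ5.H20
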