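import Pool.Agent.Lib.MP_688fd0_co.SQ5.H64.Power
import Pool.Agent.Lib.MP_688fd0_co.SQ5.H20.Chain

/-!
MP_688fd0_co, type C2 (helper20): from T-gadgets to all flat P3's of the rung graph.

`WS D A n e f`: window of length `n` with lower pair `e`, upper pair `f` (unordered pairs), moves only strands of `A`.
`One e f`: the pairs share exactly one strand. `perm_chain`: if the gadgets have the upper pairs `p (T x)` for a permutation `T`
of the (finitely many) rungs `x`, and `σ` is a permutation with `One (p x) (p (σ x))`, then the chain `T, σ, T, .., T` ends at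
`σ⁻¹ x` after at most `|X|` gadgets. `path_chain`: the same for the rungs of one wall path `ω`, where `T m` is the first meeting
of the hole line `lin τ m` with `ω`. `p3_all`: if every edge of `Λ` has a window with lower pair = upper pair then all flat P3's
of `Λ` are available.
-/

set_option autoImplicit false

namespace Pool.Agent.Lib.MP_688fd0_co.SQ5.H20

open Function Equiv
open Pool.Agent.Lib.MP_688fd0_co.SQ5.H64

/-- The pairs share exactly one strand. -/
def One {S : Type*} (e f : Sym2 S) : Prop := ∃ x y z, e = s(x, y) ∧ f = s(x, z) ∧ y ≠ z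

theorem One.symm {S : Type*} {e f : Sym2 S} (h : One e f) : One f e := by
  obtain ⟨x, y, z, h1, h2, h3⟩ := h
  exact ⟨x, z, y, h2, h1, h3.symm⟩

section WS

variable {S : Type*} [DecidableEq S]

/-- A window of length `n` with lower pair `e`, upper pair `f`, which moves only strands of `A`. -/
def WS (D : ℕ → Set (S × Bool → S × Bool)) (A : Set S) (n : ℕ) (e f : Sym2 S) : Prop :=
  ∃ a b c d, e = s(a, b) ∧ f = s(c, d) ∧ W D A n a b c d

variable {D : ℕ → Set (S × Bool → S × Bool)} {A A' : Set S} {m n : ℕ} {e f e' f' g : Sym2 S}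

theorem WS.mono (h : WS D A n e f) (hA : A ⊆ A') : WS D A' n e f := by
  obtain ⟨a, b, c, d, h1, h2, h3⟩ := h
  exact ⟨a, b, c, d, h1, h2, h3.mono hA⟩

theorem WS.low {x y : S} (h : WS D A n s(x, y) f) : ∃ c d, f = s(c, d) ∧ W D A n x y c d := by
  obtain ⟨a, b, c, d, h1, h2, h3⟩ := h
  rcases Sym2.eq_iff.1 h1 with ⟨rfl, rfl⟩ | ⟨rfl, rfl⟩
  · exact ⟨c, d, h2, h3⟩
  · exact ⟨d, c, by rw [h2, Sym2.eq_swap], h3.symm⟩

theorem WS.up {x y : S} (h : WS D A n e s(x, y)) : ∃ a b, e = s(a, b) ∧ W D A n a b x y := by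
  obtain ⟨a, b, c, d, h1, h2, h3⟩ := h
  rcases Sym2.eq_iff.1 h2 with ⟨rfl, rfl⟩ | ⟨rfl, rfl⟩
  · exact ⟨a, b, h1, h3⟩
  · exact ⟨a, b, h1, h3.flip⟩

variable [Finite S]

theorem WS.comp (hD : Closed D) (h : WS D A m e f) (ho : One f f') (h' : WS D A n f' g) :
    WS D A (m + n) e g := by
  obtain ⟨x, y, z, rfl, rfl, h1⟩ := ho
  rw [Sym2.eq_swap] at h
  obtain ⟨a, b, rfl, h2⟩ := h.up
  obtain ⟨c, d, rfl, h3⟩ := h'.low
  exact ⟨a, b, d, c, rfl, Sym2.eq_swap, h2.trans hD h3 h1⟩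

theorem WS.comp' (hD : Closed D) (h : WS D A m e f) (ho : One f f') (h' : WS D A' n f' g) :
    WS D (A ∪ A') (m + n) e g :=
  (h.mono Set.subset_union_left).comp hD ho (h'.mono Set.subset_union_right)

omit [Finite S] in
theorem WS.pad [Finite S] (hD : Closed D) (hI : ∀ n, idd ∈ D n) (h : WS D A m e f) (hn : m ≤ n) : WS D A n e f := by
  obtain ⟨a, b, c, d, h1, h2, h3, h4, h5, σ, h6, h7, h8, h9⟩ := h
  obtain ⟨k, rfl⟩ := Nat.exists_eq_add_of_le hn
  refine ⟨a, b, c, d, h1, h2, h3, h4, h5, σ, h6, h7, h8, ?_⟩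
  have := hD h9 (hI k) (noLoop_idd_right _)
  rwa [stk_idd_right (win_pair h3 σ)] at this

/-- THE CHAIN: `T` a permutation of the rungs, `σ` a permutation which moves every pair to a pair which shares exactly one
strand with it. -/
theorem perm_chain {X : Type*} [Finite X] (hD : Closed D) (T σ : Perm X) (p : X → Sym2 S) {ℓ : ℕ}
    (hT : ∀ x, WS D A ℓ (p x) (p (T x))) (hσ : ∀ x, One (p x) (p (σ x))) (x : X) :
    ∃ r, 0 < r ∧ r ≤ Nat.card X ∧ WS D A (r * ℓ) (p x) (p (σ⁻¹ x)) := by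
  classical
  have := Fintype.ofFinite X
  set ψ : X → X := fun x => σ (T x) with hψ
  have hinj : Injective ψ := σ.injective.comp T.injective
  have hper : x ∈ periodicPts ψ := hinj.mem_periodicPts x
  have h0 : 0 < minimalPeriod ψ x := minimalPeriod_pos_of_mem_periodicPts hper
  have h1 : minimalPeriod ψ x ≤ Nat.card X := by
    rw [Nat.card_eq_fintype_card]
    exact minimalPeriod_le_card
  have key : ∀ i : ℕ, WS D A ((i + 1) * ℓ) (p x) (p (T (ψ^[i] x))) := by
    intro i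
    induction i with
    | zero =>
      rw [zero_add, one_mul]
      exact hT x
    | succ i ih =>
      have h2 := ih.comp hD (hσ _) (hT _)
      have e1 : (i + 1 + 1) * ℓ = (i + 1) * ℓ + ℓ := by ring
      rw [e1, iterate_succ_apply']
      exact h2
  refine ⟨minimalPeriod ψ x, h0, h1, ?_⟩
  obtain ⟨i, hi⟩ : ∃ i, minimalPeriod ψ x = i + 1 := ⟨minimalPeriod ψ x - 1, by omega⟩
  have h2 := key i
  have h3 : ψ (ψ^[i] x) = x := by
    rw [← iterate_succ_apply' ψ i x, ← Nat.succ_eq_add_one] at *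
    have := iterate_minimalPeriod (f := ψ) (x := x)
    rwa [hi] at this
  have h4 : σ⁻¹ x = T (ψ^[i] x) := by
    rw [Perm.inv_def, symm_apply_eq]
    exact h3.symm
  rw [hi, h4]
  exact h2

end WS

/-! ### One wall path -/

section Path

variable {S : Type*}

/-- The hole line. -/
def lin (τ : ℕ → Perm S) (m : ℕ) : ℕ → S → S
  | 0, x => x
  | i + 1, x => τ (m + i) (lin τ m i x)

theorem lin_add (τ : ℕ → Perm S) (m i j : ℕ) (x : S) : lin τ m (i + j) x = lin τ (m + i) j (lin τ m i x) := by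
  induction j with
  | zero => rfl
  | succ j ih =>
    change τ (m + (i + j)) (lin τ m (i + j) x) = τ (m + i + j) (lin τ (m + i) j (lin τ m i x))
    rw [ih, add_assoc]

theorem lin_inj (τ : ℕ → Perm S) (m i : ℕ) : Injective (lin τ m i) := by
  induction i with
  | zero => exact injective_id
  | succ i ih => exact (τ (m + i)).injective.comp ih

/-- A wall path with its hole lines: `P` = vertical period. -/
structure WPath (ω : ℕ → S) (τ : ℕ → Perm S) (P : ℕ) : Prop where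
  pos : 0 < P
  om : ∀ m, ω (m + P) = ω m
  ta : ∀ m, τ (m + P) = τ m
  cl : ∀ m, lin τ m P (ω m) = ω m

/-- the hole line of `m` meets `ω` again after `i` blocks -/
def Clo (ω : ℕ → S) (τ : ℕ → Perm S) (m i : ℕ) : Prop := 0 < i ∧ lin τ m i (ω m) = ω (m + i)

namespace WPath

variable {ω : ℕ → S} {τ : ℕ → Perm S} {P : ℕ}

theorem lin_shift (h : WPath ω τ P) (m i : ℕ) (x : S) : lin τ (m + P) i x = lin τ m i x := by
  induction i with
  | zero => rfl
  | succ i ih =>
    change τ (m + P + i) (lin τ (m + P) i x) = τ (m + i) (lin τ m i x)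
    rw [ih, add_right_comm, h.ta]

theorem clo_shift (h : WPath ω τ P) (m i : ℕ) : Clo ω τ (m + P) i ↔ Clo ω τ m i := by
  unfold Clo
  rw [h.lin_shift, h.om, add_right_comm, h.om]

theorem ex (h : WPath ω τ P) (m : ℕ) : ∃ i, Clo ω τ m i :=
  ⟨P, h.pos, by rw [h.cl, h.om]⟩

open Classical in
/-- the number of blocks of the T-gadget of the rung `m` -/
noncomputable def nx (h : WPath ω τ P) (m : ℕ) : ℕ := Nat.find (h.ex m)

theorem nx_spec (h : WPath ω τ P) (m : ℕ) : Clo ω τ m (h.nx m) := by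
  classical exact Nat.find_spec (h.ex m)

theorem nx_min (h : WPath ω τ P) {m i : ℕ} (hi : i < h.nx m) : ¬ Clo ω τ m i := by
  classical exact Nat.find_min (h.ex m) hi

theorem nx_le (h : WPath ω τ P) (m : ℕ) : h.nx m ≤ P := by
  classical exact Nat.find_min' (h.ex m) ⟨h.pos, by rw [h.cl, h.om]⟩

theorem nx_shift (h : WPath ω τ P) (m : ℕ) : h.nx (m + P) = h.nx m := by
  apply le_antisymm
  · by_contra hc
    exact h.nx_min (not_le.1 hc) ((h.clo_shift m _).2 (h.nx_spec m))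
  · by_contra hc
    exact h.nx_min (not_le.1 hc) ((h.clo_shift m _).1 (h.nx_spec (m + P)))

theorem nx_shift' (h : WPath ω τ P) (m q : ℕ) : h.nx (m + q * P) = h.nx m := by
  induction q with
  | zero => rw [zero_mul, add_zero]
  | succ q ih =>
    have e : m + (q + 1) * P = m + q * P + P := by ring
    rw [e, h.nx_shift, ih]

theorem nx_inj_aux (h : WPath ω τ P) {m m' : ℕ} (hm : m < m') : m + h.nx m ≠ m' + h.nx m' := by
  intro he
  obtain ⟨d, rfl⟩ := Nat.exists_eq_add_of_lt hm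
  have h1 := h.nx_spec m
  have h2 := h.nx_spec (m + d + 1)
  have h3 : h.nx m = d + 1 + h.nx (m + d + 1) := by omega
  have h4 : lin τ m (h.nx m) (ω m) = lin τ (m + (d + 1)) (h.nx (m + d + 1)) (lin τ m (d + 1) (ω m)) := by
    rw [h3, lin_add]
  have h5 : lin τ (m + (d + 1)) (h.nx (m + d + 1)) (ω (m + (d + 1))) = ω (m + h.nx m) := by
    rw [he]
    exact h2.2
  have h6 : lin τ m (d + 1) (ω m) = ω (m + (d + 1)) := by
    apply lin_inj τ (m + (d + 1)) (h.nx (m + d + 1))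
    rw [← h4, h5]
    exact h1.2
  exact h.nx_min (m := m) (i := d + 1) (by have := h2.1; omega) ⟨by omega, h6⟩

theorem nx_inj (h : WPath ω τ P) {m m' : ℕ} (he : m + h.nx m = m' + h.nx m') : m = m' := by
  rcases lt_trichotomy m m' with h1 | h1 | h1
  · exact absurd he (h.nx_inj_aux h1)
  · exact h1
  · exact absurd he.symm (h.nx_inj_aux h1)

/-- the rung of level `m` -/
def rg (ω : ℕ → S) (m : ℕ) : Sym2 S := s(ω m, ω (m + 1))

theorem rg_shift (h : WPath ω τ P) (m : ℕ) : rg ω (m + P) = rg ω m := by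
  unfold rg
  rw [h.om, add_right_comm, h.om]

theorem rg_mod (h : WPath ω τ P) (m : ℕ) : rg ω (m % P) = rg ω m := by
  have h1 : ∀ q r : ℕ, rg ω (r + q * P) = rg ω r := by
    intro q r
    induction q with
    | zero => rw [zero_mul, add_zero]
    | succ q ih =>
      have e : r + (q + 1) * P = r + q * P + P := by ring
      rw [e, h.rg_shift, ih]
  conv_rhs => rw [← Nat.mod_add_div' m P]
  rw [h1]

theorem rg_val (h : WPath ω τ P) (m : ℕ) : rg ω ((m : ZMod P)).val = rg ω m := by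
  rw [ZMod.val_natCast, h.rg_mod]

/-- `T` -/
noncomputable def T0 (h : WPath ω τ P) (x : ZMod P) : ZMod P := ((x.val + h.nx x.val : ℕ) : ZMod P)

theorem T0_inj (h : WPath ω τ P) : Injective h.T0 := by
  have : NeZero P := ⟨h.pos.ne'⟩
  have key : ∀ x y : ZMod P, x.val + h.nx x.val ≤ y.val + h.nx y.val → h.T0 x = h.T0 y → x = y := by
    intro x y hle he
    unfold T0 at he
    rw [ZMod.natCast_eq_natCast_iff] at he
    obtain ⟨q, hq⟩ := (Nat.modEq_iff_dvd' hle).1 he
    have h1 : x.val + q * P + h.nx (x.val + q * P) = y.val + h.nx y.val := by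
      rw [h.nx_shift', mul_comm q P, ← hq]
      omega
    have h2 := h.nx_inj h1
    have h3 : ((x.val + q * P : ℕ) : ZMod P) = (y.val : ZMod P) := by rw [h2]
    rw [Nat.cast_add, Nat.cast_mul, ZMod.natCast_self, mul_zero, add_zero, ZMod.natCast_zmod_val,
      ZMod.natCast_zmod_val] at h3
    exact h3
  intro x y he
  rcases le_total (x.val + h.nx x.val) (y.val + h.nx y.val) with h1 | h1
  · exact key x y h1 he
  · exact (key y x h1 he.symm).symm

variable [DecidableEq S] [Finite S] {D : ℕ → Set (S × Bool → S × Bool)} {A : Set S}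

/-- THE CHAIN ALONG A WALL PATH -/
theorem chain (h : WPath ω τ P) (hD : Closed D) {ℓ : ℕ}
    (hw : ∀ m i, Clo ω τ m i → (∀ i', i' < i → ¬ Clo ω τ m i') → i ≤ P → WS D A ℓ (rg ω m) (rg ω (m + i)))
    {j : ℕ} (hj : ∀ m, One (rg ω m) (rg ω (m + j))) (m : ℕ) :
    (∃ r, 0 < r ∧ r ≤ P ∧ WS D A (r * ℓ) (rg ω m) (rg ω (m + j))) ∧
    (∃ r, 0 < r ∧ r ≤ P ∧ WS D A (r * ℓ) (rg ω (m + j)) (rg ω m)) := by
  have : NeZero P := ⟨h.pos.ne'⟩
  have : Finite (ZMod P) := Finite.of_fintype _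
  let T : Perm (ZMod P) := Equiv.ofBijective h.T0 (Finite.injective_iff_bijective.1 h.T0_inj)
  let p : ZMod P → Sym2 S := fun x => rg ω x.val
  have hT : ∀ x, WS D A ℓ (p x) (p (T x)) := by
    intro x
    change WS D A ℓ (rg ω x.val) (rg ω (((x.val + h.nx x.val : ℕ) : ZMod P)).val)
    rw [h.rg_val]
    exact hw _ _ (h.nx_spec _) (fun i' hi' => h.nx_min hi') (h.nx_le _)
  have hs : ∀ x : ZMod P, p (x + (j : ZMod P)) = rg ω (x.val + j) := by
    intro x
    have e : x + (j : ZMod P) = ((x.val + j : ℕ) : ZMod P) := by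
      rw [Nat.cast_add, ZMod.natCast_zmod_val]
    change rg ω (x + (j : ZMod P)).val = _
    rw [e, h.rg_val]
  have hc : Nat.card (ZMod P) = P := Nat.card_zmod P
  have h1 : ∀ x : ZMod P, One (p x) (p (Equiv.addRight (j : ZMod P) x)) := by
    intro x
    rw [Equiv.coe_addRight, hs]
    exact hj _
  have h2 : ∀ x : ZMod P, One (p x) (p ((Equiv.addRight (j : ZMod P))⁻¹ x)) := by
    intro x
    have h3 := h1 ((Equiv.addRight (j : ZMod P))⁻¹ x)
    rw [Perm.inv_def, apply_symm_apply] at h3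
    rw [Perm.inv_def]
    exact h3.symm
  constructor
  · obtain ⟨r, r1, r2, r3⟩ := perm_chain hD T ((Equiv.addRight (j : ZMod P))⁻¹) p hT h2 (m : ZMod P)
    rw [hc] at r2
    refine ⟨r, r1, r2, ?_⟩
    rw [inv_inv, Equiv.coe_addRight] at r3
    have e1 : p (m : ZMod P) = rg ω m := h.rg_val m
    have e2 : p ((m : ZMod P) + (j : ZMod P)) = rg ω (m + j) := by
      rw [← Nat.cast_add]
      exact h.rg_val _
    rwa [e1, e2] at r3
  · obtain ⟨r, r1, r2, r3⟩ := perm_chain hD T (Equiv.addRight (j : ZMod P)) p hT h1 ((m + j : ℕ) : ZMod P)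
    rw [hc] at r2
    refine ⟨r, r1, r2, ?_⟩
    have e1 : p ((m + j : ℕ) : ZMod P) = rg ω (m + j) := h.rg_val _
    have e2 : (Equiv.addRight (j : ZMod P))⁻¹ ((m + j : ℕ) : ZMod P) = (m : ZMod P) := by
      rw [Perm.inv_def, symm_apply_eq, Equiv.coe_addRight, Nat.cast_add]
    have e3 : p (m : ZMod P) = rg ω m := h.rg_val m
    rwa [e1, e2, e3] at r3

/-- the same with one length for all windows -/
theorem chain' (h : WPath ω τ P) (hD : Closed D) (hI : ∀ n, idd ∈ D n) {ℓ : ℕ}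
    (hw : ∀ m i, Clo ω τ m i → (∀ i', i' < i → ¬ Clo ω τ m i') → i ≤ P → WS D A ℓ (rg ω m) (rg ω (m + i)))
    {j : ℕ} (hj : ∀ m, One (rg ω m) (rg ω (m + j))) (m : ℕ) :
    WS D A (P * ℓ) (rg ω m) (rg ω (m + j)) ∧ WS D A (P * ℓ) (rg ω (m + j)) (rg ω m) := by
  obtain ⟨⟨r, _, r2, r3⟩, ⟨r', _, r2', r3'⟩⟩ := h.chain hD hw hj m
  exact ⟨r3.pad hD hI (Nat.mul_le_mul_right _ r2), r3'.pad hD hI (Nat.mul_le_mul_right _ r2')⟩

end WPath

end Path

/-! ### All P3's -/

section All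

variable {S : Type*} [DecidableEq S] [Finite S] {D : ℕ → Set (S × Bool → S × Bool)} {A B C : Set S} {n : ℕ}

/-- lower pair = upper pair = `{x, y}` -/
theorem ee (hD : Closed D) {x y y' r r' : S} (h1 : WS D A n s(x, y) s(x, y')) (h2 : WS D A n s(x, y') s(x, y))
    (h3 : WS D B n s(x, r) s(x, r')) (hr : y' ≠ r) (hr' : r' ≠ y') :
    WS D (A ∪ B) (n + n + n) s(x, y) s(x, y) := by
  have h4 := h1.comp' hD ⟨x, y', r, rfl, rfl, hr⟩ h3
  have h5 := h4.comp' hD ⟨x, r', y', rfl, rfl, hr'⟩ h2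
  refine h5.mono ?_
  intro s hs
  rcases hs with hs | hs
  · exact hs
  · exact Or.inl hs

/-- all flat P3's -/
theorem p3_of_ee (hD : Closed D) {x y z : S} (h1 : WS D A n s(x, y) s(x, y)) (h2 : WS D B n s(x, z) s(x, z))
    (hyz : y ≠ z) {k : ℕ} (hk : (A ∪ B).ncard ≤ k) : p3 x y z ∈ D (Nat.factorial k * (n + n)) := by
  have h3 := h1.comp' hD ⟨x, y, z, rfl, rfl, hyz⟩ h2
  obtain ⟨c, d, h4, h5⟩ := h3.low
  rcases Sym2.eq_iff.1 h4 with ⟨rfl, rfl⟩ | ⟨rfl, rfl⟩
  · exact power hD hyz h5 hk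
  · exact power hD hyz h5.flip hk

/-- ALL FLAT P3's of a graph whose edges have windows with lower pair = upper pair -/
theorem p3_all (hD : Closed D) (Λ : SimpleGraph S) {c : ℕ}
    (hE : ∀ x y, Λ.Adj x y → ∃ A : Set S, A.ncard ≤ c ∧ WS D A n s(x, y) s(x, y)) {x y z : S}
    (hy : Λ.Adj x y) (hz : Λ.Adj x z) (hyz : y ≠ z) : p3 x y z ∈ D (Nat.factorial (c + c) * (n + n)) := by
  obtain ⟨A, a1, a2⟩ := hE x y hy
  obtain ⟨B, b1, b2⟩ := hE x z hz
  exact p3_of_ee hD a2 b2 hyz ((Set.ncard_union_le A B).trans (Nat.add_le_add a1 b1))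

/-- ALL FLAT P3's from the windows of the consecutive rungs: `Rr x y z` = windows with the pairs `{x, y}`, `{x, z}` in both
directions; every neighbour has a partner, and there are two disjoint partner pairs. -/
theorem p3_all_of_partners (hD : Closed D) (Λ : SimpleGraph S) {c : ℕ} (Rr : S → S → S → Prop)
    (hR : ∀ x y z, Rr x y z → ∃ A : Set S, A.ncard ≤ c ∧ WS D A n s(x, y) s(x, z) ∧ WS D A n s(x, z) s(x, y))
    (hp : ∀ x y, Λ.Adj x y → ∃ y', Rr x y y')
    (hd : ∀ x, ∃ l l' r r', Rr x l l' ∧ Rr x r r' ∧ l ≠ r ∧ l ≠ r' ∧ l' ≠ r ∧ l' ≠ r') {x y z : S}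
    (hy : Λ.Adj x y) (hz : Λ.Adj x z) (hyz : y ≠ z) :
    p3 x y z ∈ D (Nat.factorial (c + c + (c + c)) * (n + n + n + (n + n + n))) := by
  refine p3_all hD Λ (c := c + c) (n := n + n + n) ?_ hy hz hyz
  intro x y hy
  obtain ⟨y', h1⟩ := hp x y hy
  obtain ⟨A, a1, a2, a3⟩ := hR _ _ _ h1
  obtain ⟨l, l', r, r', d1, d2, e1, e2, e3, e4⟩ := hd x
  have key : ∃ t t', Rr x t t' ∧ y' ≠ t ∧ t' ≠ y' := by
    by_cases hl : y' = l
    · subst hl
      exact ⟨r, r', d2, e1, e2.symm⟩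
    · by_cases hl' : y' = l'
      · subst hl'
        exact ⟨r, r', d2, e3, e4.symm⟩
      · exact ⟨l, l', d1, hl, Ne.symm hl'⟩
  obtain ⟨t, t', k1, k2, k3⟩ := key
  obtain ⟨B, b1, b2, -⟩ := hR _ _ _ k1
  exact ⟨A ∪ B, (Set.ncard_union_le A B).trans (Nat.add_le_add a1 b1), ee hD a2 a3 b2 k2 k3⟩

end All

end Pool.Agent.Lib.MP_688fd0_co.SQ5.H20
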