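import Pool.Agent.Lib.MP_688fd0_co.SQ5.H20.Rung

/-!
MP_688fd0_co, type C2, FAR-3, design B' (helper20): the bundle of one run.

`RunD D s0 ph c0 w`: phase `ph` in block 0 (all blocks `m : ℤ`), the strips `c0` and `c0 + w` have any width at least 4, the
strips between them width 4. The letters of the wall, of the strands (`LG`, `KG`, `SG` of Close.lean, at `ph + m`) and of the strands in a strip
of width 6 (`TG`).
-/

set_option autoImplicit false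

namespace Pool.Agent.Lib.MP_688fd0_co.SQ5.H20

open Pool.Agent.Lib.MP_688fd0_co.OSF Pool.Agent.Lib.MP_688fd0_co.SQ5.H95 Pool.Agent.Lib.MP_688fd0_co.SQ5.H76

universe u v

theorem B8_bw (m : ℤ) : B8 m = bw m := by
  unfold B8 bw
  simp only [Bool.decide_or, Bool.or_assoc]

/-- The bundle of a run. -/
structure RunD (D : Bd) (s0 ph c0 : ℤ) (w : ℕ) : Prop where
  b : ∀ m : ℤ, D.b (s0 + m) = bw (ph + m)
  cs : ∀ m : ℤ, D.cs (s0 + m) = col (ph + m)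
  hL : 2 ≤ D.hw c0
  hR : 2 ≤ D.hw (c0 + w)
  hM : ∀ K, c0 < K → K < c0 + w → D.hw K = 2
  w3 : 3 ≤ w

/-- strand step in a strip of width 6 -/
def TG {Q : Type*} [Group Q] (a b t : Q) (m : ℤ) : Q := SG a b t m * (LG a b t m)⁻¹ * KG a b t m

theorem mod8c (x : ℤ) : x % 8 = 0 ∨ x % 8 = 1 ∨ x % 8 = 2 ∨ x % 8 = 3 ∨ x % 8 = 4 ∨ x % 8 = 5 ∨ x % 8 = 6 ∨ x % 8 = 7 := by
  omega

variable {Q : Type u} [Group Q] {B : Lb.{u, v} Q} {l : L3 → B.L} {D : Bd} {s0 ph c0 : ℤ} {w : ℕ}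

theorem qq_inv (hi : ∀ i, B.inv (l i) = l i) (i : L3) : (qq B l i)⁻¹ = qq B l i := by
  have h : B.q (l i) = (B.q (l i))⁻¹ := by rw [← B.q_inv, hi]
  exact h.symm

theorem qq_sq (hi : ∀ i, B.inv (l i) = l i) (i : L3) : qq B l i * qq B l i = 1 := q_sq hi i

namespace RunD

variable (H : RunD D s0 ph c0 w)
include H

theorem LL (m : ℤ) : Bd.LL (qq B l) (D.b (s0 + m)) = LG (qq B l .a) (qq B l .b) (qq B l .t) (ph + m) := by
  unfold Bd.LL LG wl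
  rw [H.b, B8_bw]
  split_ifs <;> rfl

theorem KK (m : ℤ) : Bd.KK (qq B l) (D.b (s0 + m)) = KG (qq B l .a) (qq B l .b) (qq B l .t) (ph + m) := by
  unfold Bd.KK KG ow
  rw [H.b, B8_bw]
  split_ifs <;> rfl

/-- The strip of a strand. -/
theorem sp (κ m : ℤ) : D.sp κ (s0 + m) = κ - 1 ∧ ((ph + m) % 8 = 0 ∨ (ph + m) % 8 = 5 ∨ (ph + m) % 8 = 6 ∨ (ph + m) % 8 = 7) ∨
    D.sp κ (s0 + m) = κ - 2 ∧ ((ph + m) % 8 = 1 ∨ (ph + m) % 8 = 2 ∨ (ph + m) % 8 = 3 ∨ (ph + m) % 8 = 4) := by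
  unfold Bd.sp
  rw [H.b, H.cs]
  generalize ph + m = x
  rcases mod8c x with h | h | h | h | h | h | h | h <;> simp [H76.col, bw, h] <;> omega

/-- strand step in a strip of width 4 -/
theorem stp2 (hi : ∀ i, B.inv (l i) = l i) {κ m : ℤ} (h : D.hw (D.sp κ (s0 + m)) = 2) :
    D.stp (qq B l) κ (s0 + m) = SG (qq B l .a) (qq B l .b) (qq B l .t) (ph + m) := by
  rw [D.stp_eq (qq_sq hi), h, H.LL, H.KK]
  unfold SG
  rw [show 2 - 1 = 1 from rfl, pow_one, mul_assoc]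

/-- strand step in a strip of width 6 -/
theorem stp3 (hi : ∀ i, B.inv (l i) = l i) {κ m : ℤ} (h : D.hw (D.sp κ (s0 + m)) = 3) :
    D.stp (qq B l) κ (s0 + m) = TG (qq B l .a) (qq B l .b) (qq B l .t) (ph + m) := by
  rw [D.stp_eq (qq_sq hi), h, H.LL, H.KK]
  unfold TG SG
  rw [show 3 - 1 = 2 from rfl, pow_two]
  group

/-- The half widths of the strips `c0 .. c0 + w`. -/
theorem hw2 {K : ℤ} (h0 : c0 ≤ K) (h1 : K ≤ c0 + w) : 2 ≤ D.hw K := by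
  have hL := H.hL
  have hR := H.hR
  have hM := H.hM K
  by_cases h2 : K = c0
  · rw [h2]; exact hL
  · by_cases h3 : K = c0 + w
    · rw [h3]; exact hR
    · rw [hM (by omega) (by omega)]

theorem cs_range (m : ℤ) : 0 ≤ D.cs (s0 + m) ∧ D.cs (s0 + m) ≤ 2 := by
  rw [H.cs]
  exact ⟨col_nonneg _, col_le _⟩

end RunD

end Pool.Agent.Lib.MP_688fd0_co.SQ5.H20
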